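import Pool.Agent.Y160.SE.LocC
import Pool.Agent.TH115.TC.Compl

/-!
# The valuations of the Kummer generator
-/

set_option autoImplicit false
set_option linter.all false

open Polynomial IsDedekindDomain WithZero
open scoped nonZeroDivisors Classical

namespace Pool.Agent.Y160.SE

open Pool.Agent.TH115.GD (incl rs ak Sep Comp CompInf IsTower rs_mul Preserves exists_conj lift_fix
  cont_rs exists_restrict exists_aut exists_kappa exists_compl_map)
open Pool.Agent.W309.TD (locConst_apply compare)

/-- The Jacobian criterion: the affine plane curve `f(x, t) = 0` is smooth over `k` (`f` is a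
polynomial in `x` over `k[t]`). -/
def SmoothC {k : Type} [Field k] (f : k[X][X]) : Prop :=
  Ideal.span {f, derivative f, f.sum fun i a => C (derivative a) * X ^ i} = ⊤

/-- The local lemmas. -/
structure LHyps : Prop where
  loc : StLoc
  sm : StSm
  res : StRes

theorem tder_map {k k' : Type} [Field k] [Field k'] (φ : k →+* k') (f : k[X][X]) :
    (f.map (mapRingHom φ)).sum (fun i a => C (derivative a) * X ^ i) =
      (f.sum fun i a => C (derivative a) * X ^ i).map (mapRingHom φ) := by
  rw [sum_def, sum_def, Polynomial.map_sum]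
  have hinj : Function.Injective (mapRingHom φ) := Polynomial.map_injective φ φ.injective
  rw [support_map_of_injective _ hinj]
  refine Finset.sum_congr rfl fun i _ => ?_
  rw [Polynomial.map_mul, Polynomial.map_pow, map_X, map_C, coeff_map, coe_mapRingHom,
    derivative_map]

theorem SmoothC.map {k k' : Type} [Field k] [Field k'] (φ : k →+* k') {f : k[X][X]}
    (h : SmoothC f) : SmoothC (f.map (mapRingHom φ)) := by
  unfold SmoothC at *
  have h1 := congrArg (Ideal.map (mapRingHom (mapRingHom φ))) h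
  rw [Ideal.map_top, Ideal.map_span] at h1
  rw [← h1, tder_map, derivative_map]
  congr 1
  simp only [Set.image_insert_eq, Set.image_singleton, coe_mapRingHom]

section pw

variable {E : Type} [Field E] (w : Valuation E (WithZero (Multiplicative ℤ)))

/-- The value is an `ℓ`-th power. -/
def IsPw (ℓ : ℕ) (γ : WithZero (Multiplicative ℤ)) : Prop := ∃ δ, γ = δ ^ ℓ

theorem IsPw.mul {ℓ : ℕ} {γ δ : WithZero (Multiplicative ℤ)} (h : IsPw ℓ γ) (h' : IsPw ℓ δ) :
    IsPw ℓ (γ * δ) := by
  obtain ⟨a, rfl⟩ := h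
  obtain ⟨b, rfl⟩ := h'
  exact ⟨a * b, (mul_pow _ _ _).symm⟩

theorem IsPw.pow {ℓ : ℕ} {γ : WithZero (Multiplicative ℤ)} (h : IsPw ℓ γ) (n : ℕ) :
    IsPw ℓ (γ ^ n) := by
  obtain ⟨a, rfl⟩ := h
  exact ⟨a ^ n, by rw [← pow_mul, ← pow_mul, mul_comm]⟩

theorem IsPw.self {ℓ : ℕ} (γ : WithZero (Multiplicative ℤ)) : IsPw ℓ (γ ^ ℓ) := ⟨γ, rfl⟩

theorem IsPw.of_mul {ℓ : ℕ} {γ δ : WithZero (Multiplicative ℤ)} (hδ : δ ≠ 0)
    (h : IsPw ℓ (γ * δ ^ ℓ)) : IsPw ℓ γ := by
  obtain ⟨a, ha⟩ := h
  refine ⟨a / δ, ?_⟩
  rw [div_pow, ← ha, mul_div_cancel_right₀ _ (pow_ne_zero _ hδ)]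

end pw

section par

variable {ℓ : ℕ} {k k' K F M B : Type} [Field k] [Field k'] [Algebra k k'] [Field K]
  [Algebra k[X] K] [Field F] [Algebra k'[X] F] [IsFractionRing k'[X] F] [Algebra K F]
  [Field M] [Algebra F M] [Algebra K M] [IsScalarTower K F M] [Algebra M (Sep F)]
  [IsScalarTower F M (Sep F)]
  [CommRing B] [IsDedekindDomain B] [Algebra B M] [IsFractionRing B M] [Algebra k'[X] B]
  [Algebra.IsIntegral k'[X] B] [Algebra k'[X] M] [IsScalarTower k'[X] F M]
  [IsScalarTower k'[X] B M] [Module.IsTorsionFree k'[X] B]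

/-- The valuations of the generator are `ℓ`-th powers. -/
theorem parM (H : Hyps) (HL : LHyps) [IsSepClosed k'] (hKF : ∀ p : k[X],
      algebraMap K F (algebraMap k[X] K p) = algebraMap k'[X] F (p.map (algebraMap k k')))
    {f : k[X][X]} {ζ : K} (hg : Good ℓ ζ (f.map (algebraMap k[X] K))) (hfm : f.Monic)
    (hℓk : (ℓ : k') ≠ 0) (hS : SmoothC f)
    {a : Sep F} {θ z : M} (hθ : algebraMap M (Sep F) θ = a)
    (ha : Rt (f.map (algebraMap k[X] K)) a)
    {c : (Sep F ≃ₐ[F] Sep F) → Jac ℓ (f.map (algebraMap k[X] K)) (Sep F)}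
    (hc : IsCoc ℓ _ c) (hc2 : ∀ σ, Tor hg (c σ))
    (hloc : LocallyTrivial ℓ k' _ c) {t : Sep F} (ht : t ≠ 0)
    (hz : t ^ ℓ = algebraMap M (Sep F) z) (hk : ∀ σ : Sep F ≃ₐ[F] Sep F, σ a = a →
      σ t = chi hg a (c σ) * t) (𝔓 : HeightOneSpectrum B) : IsPw ℓ (𝔓.valuation M z) := by
  set f1 := f.map (algebraMap k[X] K) with hf1
  let v : HeightOneSpectrum k'[X] := 𝔓.under k'[X]
  haveI hlo : 𝔓.asIdeal.LiesOver v.asIdeal := ⟨rfl⟩
  have hval : ∀ x : F, v.valuation F x ^ v.asIdeal.ramificationIdx' 𝔓.asIdeal =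
      𝔓.valuation M (algebraMap F M x) := fun x =>
    HeightOneSpectrum.valuation_liesOver (A := k'[X]) M v 𝔓 x
  have he : v.asIdeal.ramificationIdx' 𝔓.asIdeal ≠ 0 :=
    Ideal.IsDedekindDomain.ramificationIdx'_ne_zero_of_liesOver 𝔓.asIdeal v.ne_bot
  obtain ⟨j, hj1, hj2, hj3⟩ := exists_compl_map v 𝔓 (algebraMap F M)
    (fun x hx => by rw [← hval]; exact pow_le_one₀ zero_le hx)
    (fun x hx => by rw [← hval]; exact pow_lt_one₀ zero_le hx he)
  let L := Comp k'[X] F v
  let E := Comp B M 𝔓
  haveI : IsScalarTower K F E := IsScalarTower.of_algebraMap_eq fun x => by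
    show algebraMap M E (algebraMap K M x) = algebraMap M E (algebraMap F M (algebraMap K F x))
    rw [← IsScalarTower.algebraMap_apply K F M]
  let j' : L →+* E := j
  have hj' : ∀ x : F, j' (algebraMap F L x) = algebraMap F E x := fun x => hj1 x
  have hjK : ∀ x : K, j' (algebraMap K L x) = algebraMap K E x := fun x => by
    rw [IsScalarTower.algebraMap_apply K F L, hj', ← IsScalarTower.algebraMap_apply K F E]
  obtain ⟨g0, G, y0, hg0, hy0, hG, hzG⟩ := locC (K := K) (F := F) (Ω := Sep F) (L := L)
    (Ω' := Sep L) (E := E) (M := M) H hg (Sep E) ha hθ j' hj' hc hc2 (hloc.1 v) ht hz hk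
  let wE : Valuation E (WithZero (Multiplicative ℤ)) :=
    (Valued.v : Valuation (𝔓.adicCompletion M) (WithZero (Multiplicative ℤ)))
  have wz : ∀ x : M, wE (algebraMap M E x) = 𝔓.valuation M x := fun x =>
    HeightOneSpectrum.valuedAdicCompletion_eq_valuation' 𝔓 x
  -- the polynomial over the integers of the completion
  let fO : (v.adicCompletionIntegers F)[X] :=
    (f.map (mapRingHom (algebraMap k k'))).map (algebraMap k'[X] (v.adicCompletionIntegers F))
  have hfO : fO.map (algebraMap (v.adicCompletionIntegers F) (v.adicCompletion F)) =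
      f1.map (algebraMap K L) := by
    show ((f.map (mapRingHom (algebraMap k k'))).map
      (algebraMap k'[X] (v.adicCompletionIntegers F))).map
      (algebraMap (v.adicCompletionIntegers F) (v.adicCompletion F)) = _
    rw [Polynomial.map_map, Polynomial.map_map, hf1, Polynomial.map_map]
    congr 1
    apply RingHom.ext
    intro p
    show algebraMap (v.adicCompletionIntegers F) (v.adicCompletion F)
      (algebraMap k'[X] (v.adicCompletionIntegers F) (p.map (algebraMap k k'))) =
      algebraMap K L (algebraMap k[X] K p)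
    rw [IsScalarTower.algebraMap_apply K F L, hKF]
    rfl
  have hroot : ((f1.map (algebraMap K L)).map j').eval (algebraMap M E θ) = 0 := by
    have h1 : eval₂ (algebraMap K M) θ f1 = 0 := by
      apply (algebraMap M (Sep F)).injective
      rw [hom_eval₂, hθ, map_zero]
      have h3 : (algebraMap M (Sep F)).comp (algebraMap K M) = algebraMap K (Sep F) :=
        RingHom.ext fun x => by
          show algebraMap M (Sep F) (algebraMap K M x) = _
          rw [IsScalarTower.algebraMap_apply K F M, ← IsScalarTower.algebraMap_apply F M (Sep F),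
            ← IsScalarTower.algebraMap_apply K F (Sep F)]
      rw [h3]
      exact ha
    rw [Polynomial.map_map]
    have h3 : j'.comp (algebraMap K L) = (algebraMap M E).comp (algebraMap K M) :=
      RingHom.ext fun x => hjK x
    rw [h3, eval_map, ← hom_eval₂, h1, map_zero]
  have hpw : ∀ s : Multiset L[X], (∀ p ∈ s, p.Monic ∧ Irreducible p ∧
      ¬ p ∣ f1.map (algebraMap K L) ∧ ∃ c : L[X], p ∣ f1.map (algebraMap K L) - c ^ ℓ) →
      IsPw ℓ (wE ((s.prod.map j').eval (algebraMap M E θ))) := by
    intro s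
    induction s using Multiset.induction_on with
    | empty =>
      intro _
      rw [Multiset.prod_zero, Polynomial.map_one, eval_one, map_one]
      exact ⟨1, (one_pow _).symm⟩
    | cons p s ih =>
      intro h
      obtain ⟨h1, h3, h4, c, h5⟩ := h p (Multiset.mem_cons_self p s)
      rw [Multiset.prod_cons, Polynomial.map_mul, eval_mul, map_mul]
      refine IsPw.mul ?_ (ih fun q hq => h q (Multiset.mem_cons_of_mem hq))
      exact HL.loc ℓ k'[X] F v E wE j' hj2 hj3 fO (f1.map (algebraMap K L)) p c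
        (algebraMap M E θ) hg.prime hfO (by exact (hfm.map _).map _) (hg.up L).sep
        (HL.res k' F v ℓ hg.prime hℓk)
        (HL.sm k' F v _ (hS.map (algebraMap k k')))
        (by
          have h6 := hg.cop
          rw [hfm.natDegree_map] at h6
          have h7 : fO.natDegree = f.natDegree := by
            show ((f.map (mapRingHom (algebraMap k k'))).map
              (algebraMap k'[X] (v.adicCompletionIntegers F))).natDegree = _
            rw [(hfm.map _).natDegree_map, hfm.natDegree_map]
          rw [h7]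
          exact h6) hroot h1 h3 h4 h5
  obtain ⟨r, s, hr, hps, hGe⟩ := hG
  have hGpw : IsPw ℓ (wE ((G.map j').eval (algebraMap M E θ))) := by
    rw [hGe, Polynomial.map_mul, eval_mul, map_mul, Polynomial.map_pow, eval_pow, map_pow]
    exact (IsPw.self _).mul (hpw s hps)
  rw [← wz]
  refine IsPw.of_mul (δ := wE (j' y0)) ?_ ?_
  · rw [Valuation.ne_zero_iff]
    exact (_root_.map_ne_zero j').2 hy0
  · rw [← map_pow, ← map_mul]
    rcases hzG with h | h
    · rw [h, map_mul, map_pow, map_pow]
      exact (IsPw.self _).mul (hGpw.pow _)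
    · rw [h, Valuation.map_neg, map_mul, map_pow, map_pow]
      exact (IsPw.self _).mul (hGpw.pow _)

end par

end Pool.Agent.Y160.SE
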