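import Pool.Agent.Y160.SE.Crit
import Pool.Agent.Y705.SE.Ring
import Pool.Agent.Y705.SE.Norm
import Pool.Agent.Y317.SE.Max
import Pool.Agent.Y317.SE.Res
import Pool.Agent.Y494.SE.Div
import Pool.Agent.Y494.SE.Chi
import Pool.Agent.Y494.SE.KC
import Pool.Agent.Y529.SE.Desc
import Pool.Agent.Y529.SE.Chi
import Pool.Agent.Y228.SE.Pic
import Pool.Agent.Y228.SE.Sm
import Pool.Agent.Y154.SE.Loc

/-!
# The lemmas on superelliptic curves, all together
-/

set_option autoImplicit false
set_option linter.all false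

namespace Pool.Agent.Y160.SE

theorem hyps : Hyps := by
  have h1 := Pool.Agent.Y705.SE.stRing
  have h2 := Pool.Agent.Y705.SE.stNorm
  have h3 := Pool.Agent.Y317.SE.stMax h1 h2
  have h4 := Pool.Agent.Y317.SE.stNmI h1 h2
  have h5 := Pool.Agent.Y494.SE.stChiA h1 h2
  exact
    { ring := h1
      norm := h2
      max := h3
      nmi := h4
      move := Pool.Agent.Y494.SE.stMove h1
      div := Pool.Agent.Y494.SE.stDiv h1 h2 h4
      desc := Pool.Agent.Y529.SE.stDesc h1 h2
      chiA := h5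
      chiF := Pool.Agent.Y494.SE.stChiF
      chiI := Pool.Agent.Y529.SE.stChiI h1 h2 h3 h4 h5
      chiS := Pool.Agent.Y529.SE.stChiS h1 h2 h3 h4 h5
      kc := Pool.Agent.Y494.SE.stKC h1 h2
      pic := Pool.Agent.Y228.SE.stPic }

theorem lhyps : LHyps :=
  { loc := Pool.Agent.Y154.SE.stLoc
    sm := Pool.Agent.Y228.SE.stSm
    res := Pool.Agent.Y317.SE.stRes }

end Pool.Agent.Y160.SE
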