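import Pool.Agent.Y160.SE.CritM
import Pool.Agent.TH115.TC.Crit

/-!
# The criterion for the Tate conjecture at `ℓ` for `y ^ ℓ = f(x, t)` in terms of the curve `f = 0`
-/

set_option autoImplicit false
set_option linter.all false

open Polynomial IsDedekindDomain WithZero
open scoped nonZeroDivisors Classical

namespace Pool.Agent.Y160.SE

open Pool.Agent.TH115.GD (incl rs ak Sep Comp CompInf IsTower rs_mul Preserves exists_conj lift_fix
  cont_rs exists_restrict exists_aut exists_kappa exists_compl_map sepKΩ preserves exists_over
  val_unram poly_integral)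

section critN

variable {ℓ : ℕ} {k k' K F N : Type} [Field k] [Field k'] [Algebra k k'] [Field K] [Algebra k[X] K]
  [Field F] [Algebra k'[X] F] [IsFractionRing k'[X] F] [Algebra K F]
  [Field N] [Algebra K N] [Algebra k[X] N] [IsScalarTower k[X] K N]
  {R : Type} [CommRing R] [IsDedekindDomain R] [Algebra R N] [IsFractionRing R N]
  [Algebra k[X] R] [IsScalarTower k[X] R N] [Algebra.IsIntegral k[X] R]

/-- The criterion with a fixed embedding of `N` in the separable closure. -/
theorem critN [Algebra N (Sep F)] [IsScalarTower K N (Sep F)] (H : Hyps) (HL : LHyps)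
    (hT : IsTower k k' K F) {f : k[X][X]} {ζ : K}
    (hg : Good ℓ ζ (f.map (algebraMap k[X] K))) (hfm : f.Monic) (hℓk : (ℓ : k') ≠ 0)
    (hS : SmoothC f) (hirr : Irreducible ((f.map (algebraMap k[X] K)).map (algebraMap K F)))
    {θ : N} (hθ : aeval θ (f.map (algebraMap k[X] K)) = 0)
    (hNtop : IntermediateField.adjoin K {θ} = ⊤)
    (hpts : ∀ z : N, z ≠ 0 → (∀ v : HeightOneSpectrum R, IsPw ℓ (v.valuation N z)) →
      ∃ (u : k) (g : N) (S : Multiset (K × K)), u ≠ 0 ∧ g ≠ 0 ∧
        (∀ P ∈ S, P.2 ^ ℓ = (f.map (algebraMap k[X] K)).eval P.1) ∧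
        z = algebraMap k[X] N (C u) * g ^ ℓ *
          (S.map fun P => θ - algebraMap K N P.1).prod) :
    TateAt (F := F) ℓ k' (f.map (algebraMap k[X] K)) := by
  haveI := hT.sep
  haveI := hT.fracK
  haveI : IsGalois k k' := inferInstance
  have hKF := hT.map
  haveI : IsSepClosure K (Sep F) := sepKΩ hKF
  haveI : Algebra.IsSeparable K (Sep F) := IsSepClosure.separable
  haveI : IsGalois K (Sep F) := inferInstance
  set a : Sep F := algebraMap N (Sep F) θ with ha
  have haR : Rt (f.map (algebraMap k[X] K)) a := by
    have h1 : aeval a (f.map (algebraMap k[X] K)) = 0 := by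
      rw [ha, aeval_algebraMap_apply, hθ, map_zero]
    exact h1
  have hKN : ∀ x : K, algebraMap N (Sep F) (algebraMap K N x) =
      algebraMap F (Sep F) (algebraMap K F x) := fun x => by
    rw [← IsScalarTower.algebraMap_apply K N (Sep F), ← IsScalarTower.algebraMap_apply K F (Sep F)]
  -- the field `M`
  let S : IntermediateField F (Sep F) := IntermediateField.adjoin F {a}
  haveI : FiniteDimensional F S := IntermediateField.adjoin.finiteDimensional
    (Algebra.IsIntegral.isIntegral (R := F) a)
  haveI : Algebra.IsSeparable F S := inferInstance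
  have hmem : ∀ x : N, algebraMap N (Sep F) x ∈ S := by
    intro x
    have hx : x ∈ (⊤ : IntermediateField K N) := trivial
    rw [← hNtop] at hx
    refine IntermediateField.adjoin_induction K
      (p := fun x _ => algebraMap N (Sep F) x ∈ S) ?_ ?_ ?_ ?_ ?_ hx
    · intro y hy
      rw [Set.mem_singleton_iff] at hy
      subst hy
      exact IntermediateField.mem_adjoin_simple_self F a
    · intro y
      rw [hKN]
      exact S.algebraMap_mem _
    · intro x y _ _ hx hy
      rw [map_add]; exact add_mem hx hy
    · intro x _ hx
      rw [map_inv₀]; exact inv_mem hx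
    · intro x y _ _ hx hy
      rw [map_mul]; exact mul_mem hx hy
  let M : Type := S
  letI : Algebra N M := ((algebraMap N (Sep F)).codRestrict S hmem).toAlgebra
  haveI : IsScalarTower N M (Sep F) := IsScalarTower.of_algebraMap_eq fun x => rfl
  haveI : IsScalarTower K F M := IsScalarTower.of_algebraMap_eq fun x => Subtype.ext
    (IsScalarTower.algebraMap_apply K F (Sep F) x)
  letI : Algebra k N := ((algebraMap k[X] N).comp C).toAlgebra
  letI : Algebra k' M := ((algebraMap F M).comp ((algebraMap k'[X] F).comp C)).toAlgebra
  letI : Algebra k M := ((algebraMap k' M).comp (algebraMap k k')).toAlgebra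
  haveI : IsScalarTower k k' M := IsScalarTower.of_algebraMap_eq fun x => rfl
  have hkX : ∀ p : k[X], algebraMap N (Sep F) (algebraMap k[X] N p) =
      algebraMap F (Sep F) (algebraMap k'[X] F (p.map (algebraMap k k'))) := by
    intro p
    rw [IsScalarTower.algebraMap_apply k[X] K N, hKN, hKF]
  have hkN : ∀ x : k, algebraMap N (Sep F) (algebraMap k N x) =
      algebraMap F (Sep F) (algebraMap k'[X] F (C (algebraMap k k' x))) := by
    intro x
    have := hkX (C x)
    rwa [map_C] at this
  haveI : IsScalarTower k N M := IsScalarTower.of_algebraMap_eq fun x => Subtype.ext (hkN x).symm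
  letI : Algebra k'[X] M := ((algebraMap F M).comp (algebraMap k'[X] F)).toAlgebra
  haveI : IsScalarTower k'[X] F M := IsScalarTower.of_algebraMap_eq fun x => rfl
  -- the ring `R`
  haveI : FiniteDimensional K N := by
    have hint : IsIntegral K θ := by
      have h1 : IsIntegral K a := Algebra.IsIntegral.isIntegral a
      exact (isIntegral_algebraMap_iff (algebraMap N (Sep F)).injective).1 h1
    haveI := IntermediateField.adjoin.finiteDimensional hint
    rw [hNtop] at this
    exact (IntermediateField.topEquiv (F := K) (E := N)).toLinearEquiv.finiteDimensional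
  haveI : Algebra.IsSeparable K N := Algebra.isSeparable_tower_bot_of_isSeparable K N (Sep F)
  haveI : IsDedekindDomain (integralClosure k'[X] M) := integralClosure.isDedekindDomain k'[X] F M
  haveI : IsFractionRing (integralClosure k'[X] M) M :=
    integralClosure.isFractionRing_of_finite_extension F M
  letI : Algebra R M := ((algebraMap N M).comp (algebraMap R N)).toAlgebra
  haveI : IsScalarTower R N M := IsScalarTower.of_algebraMap_eq fun x => rfl
  have hRB : ∀ r : R, algebraMap N M (algebraMap R N r) ∈ integralClosure k'[X] M := by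
    intro r
    have h1 : IsIntegral k[X] (algebraMap R N r) :=
      (Algebra.IsIntegral.isIntegral (R := k[X]) r).algebraMap
    exact IsIntegral.map_of_comp_eq (mapRingHom (algebraMap k k')) (algebraMap N M) (by
      ext p
      · exact (hkX (C p)).symm
      · exact (hkX X).symm) h1
  letI : Algebra R (integralClosure k'[X] M) :=
    (((algebraMap N M).comp (algebraMap R N)).codRestrict
      (integralClosure k'[X] M) hRB).toAlgebra
  haveI : IsScalarTower R (integralClosure k'[X] M) M :=
    IsScalarTower.of_algebraMap_eq fun x => rfl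
  letI : Algebra k' (integralClosure k'[X] M) :=
    ((algebraMap k'[X] (integralClosure k'[X] M)).comp C).toAlgebra
  haveI : IsScalarTower k' (integralClosure k'[X] M) M :=
    IsScalarTower.of_algebraMap_eq fun x => rfl
  haveI : Algebra.IsIntegral R (integralClosure k'[X] M) := by
    have h1 : (mapRingHom (algebraMap k k')).IsIntegral := poly_integral
    have h3 : (algebraMap k'[X] (integralClosure k'[X] M)).IsIntegral := fun x =>
      Algebra.IsIntegral.isIntegral (R := k'[X]) x
    have h4 := RingHom.IsIntegral.trans _ _ h1 h3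
    have h5 : (algebraMap k'[X] (integralClosure k'[X] M)).comp (mapRingHom (algebraMap k k')) =
        (algebraMap R (integralClosure k'[X] M)).comp
          (algebraMap k[X] R) := by
      apply RingHom.ext
      intro p
      apply Subtype.ext
      apply Subtype.ext
      show algebraMap F (Sep F) (algebraMap k'[X] F (p.map (algebraMap k k'))) =
        algebraMap N (Sep F) (algebraMap R N (algebraMap k[X] R p))
      rw [← IsScalarTower.algebraMap_apply k[X] R N]
      exact (hkX p).symm
    rw [h5] at h4
    exact ⟨RingHom.IsIntegral.tower_top _ _ h4⟩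
  haveI : Module.IsTorsionFree R (integralClosure k'[X] M) := by
    rw [Module.isTorsionFree_iff_algebraMap_injective]
    intro x y h
    have h1 := congrArg (algebraMap (integralClosure k'[X] M) M) h
    rw [← IsScalarTower.algebraMap_apply R (integralClosure k'[X] M) M,
      ← IsScalarTower.algebraMap_apply R (integralClosure k'[X] M) M] at h1
    exact IsFractionRing.injective R N ((algebraMap N M).injective h1)
  haveI : Module.IsTorsionFree k'[X] (integralClosure k'[X] M) := by
    rw [Module.isTorsionFree_iff_algebraMap_injective]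
    intro x y h
    have h1 := congrArg (algebraMap (integralClosure k'[X] M) M) h
    apply IsFractionRing.injective k'[X] F
    exact (algebraMap F M).injective h1
  -- `M` is generated by the constants
  have htop : IntermediateField.adjoin N (Set.range (algebraMap k' M)) = ⊤ := by
    set T : IntermediateField N M := IntermediateField.adjoin N (Set.range (algebraMap k' M)) with hT'
    have hpoly : ∀ p : k'[X], algebraMap F M (algebraMap k'[X] F p) ∈ T := by
      intro p
      induction p using Polynomial.induction_on' with
      | add p q hp hq => rw [map_add, map_add]; exact add_mem hp hq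
      | monomial n c =>
        rw [← C_mul_X_pow_eq_monomial, map_mul, map_mul, map_pow, map_pow]
        refine mul_mem (IntermediateField.subset_adjoin N _ ⟨c, rfl⟩) (pow_mem ?_ n)
        have h1 : algebraMap F M (algebraMap k'[X] F X) = algebraMap N M (algebraMap k[X] N X) := by
          apply Subtype.ext
          have := hkX X
          rw [map_X] at this
          exact this.symm
        rw [h1]
        exact T.algebraMap_mem _
    have hF : ∀ x : F, algebraMap F M x ∈ T := by
      intro x
      obtain ⟨n, d, hd, rfl⟩ := IsFractionRing.div_surjective (A := k'[X]) x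
      rw [map_div₀]
      exact div_mem (hpoly n) (hpoly d)
    rw [eq_top_iff]
    rintro ⟨x, hx⟩ -
    refine IntermediateField.adjoin_induction F
      (p := fun x hx => (⟨x, hx⟩ : M) ∈ T) ?_ ?_ ?_ ?_ ?_ hx
    · intro y hy
      rw [Set.mem_singleton_iff] at hy
      subst hy
      exact T.algebraMap_mem θ
    · intro y
      exact hF y
    · intro x y _ _ hx hy
      exact add_mem hx hy
    · intro x _ hx
      exact inv_mem hx
    · intro x y _ _ hx hy
      exact mul_mem hx hy
  exact critM (M := M) (R := R) (integralClosure k'[X] M) H HL hT hg hfm hℓk hS hirr haR rfl hNtop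
    htop hkN hpts

end critN

section main

variable {ℓ : ℕ} {k k' K F N : Type} [Field k] [Field k'] [Algebra k k'] [Field K] [Algebra k[X] K]
  [Field F] [Algebra k'[X] F] [IsFractionRing k'[X] F] [Algebra K F]
  [Field N] [Algebra K N] [Algebra k[X] N] [IsScalarTower k[X] K N]

/-- **The criterion**. -/
theorem mainC {R : Type} [CommRing R] [IsDedekindDomain R] [Algebra R N] [IsFractionRing R N]
    [Algebra k[X] R] [IsScalarTower k[X] R N] [Algebra.IsIntegral k[X] R] (H : Hyps) (HL : LHyps)
    (hT : IsTower k k' K F) (hℓ : ℓ.Prime) {ζ : k} (hζ : IsPrimitiveRoot ζ ℓ) {f : k[X][X]}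
    (hfm : f.Monic) (hcop : ℓ.Coprime f.natDegree)
    (hsep : (f.map (algebraMap k[X] K)).Separable)
    (hS : SmoothC f) (hirr : Irreducible ((f.map (algebraMap k[X] K)).map (algebraMap K F)))
    {θ : N} (hθ : aeval θ (f.map (algebraMap k[X] K)) = 0)
    (hNtop : IntermediateField.adjoin K {θ} = ⊤)
    (hpts : ∀ z : N, z ≠ 0 → (∀ v : HeightOneSpectrum R, IsPw ℓ (v.valuation N z)) →
      ∃ (u : k) (g : N) (S : Multiset (K × K)), u ≠ 0 ∧ g ≠ 0 ∧
        (∀ P ∈ S, P.2 ^ ℓ = (f.map (algebraMap k[X] K)).eval P.1) ∧
        z = algebraMap k[X] N (C u) * g ^ ℓ *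
          (S.map fun P => θ - algebraMap K N P.1).prod) :
    TateAt (F := F) ℓ k' (f.map (algebraMap k[X] K)) := by
  haveI := hT.sep
  haveI := hT.fracK
  haveI : IsSepClosure K (Sep F) := sepKΩ hT.map
  have hKinj : Function.Injective ((algebraMap k[X] K).comp C) :=
    (IsFractionRing.injective k[X] K).comp C_injective
  have hg : Good ℓ (algebraMap k[X] K (C ζ)) (f.map (algebraMap k[X] K)) :=
    ⟨hℓ, hζ.map_of_injective (f := (algebraMap k[X] K).comp C) hKinj, hfm.map _, hsep, by
      rw [hfm.natDegree_map]; exact hcop⟩
  haveI : NeZero ℓ := ⟨hℓ.ne_zero⟩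
  have hℓk : (ℓ : k') ≠ 0 := by
    have h1 := hζ.neZero'
    have h3 : ((ℓ : ℕ) : k') = algebraMap k k' (ℓ : k) := (map_natCast _ _).symm
    rw [h3]
    exact (_root_.map_ne_zero _).2 h1.out
  have hint : IsIntegral K θ := ⟨f.map (algebraMap k[X] K), hfm.map _, hθ⟩
  have hs : IsSeparable K θ := hsep.of_dvd (minpoly.dvd K θ hθ)
  have f3 : Algebra.IsSeparable K (IntermediateField.adjoin K {θ}) :=
    (IntermediateField.isSeparable_adjoin_simple_iff_isSeparable K N).2 hs
  rw [hNtop] at f3
  haveI : Algebra.IsSeparable K N :=
    Algebra.IsSeparable.of_algHom K (⊤ : IntermediateField K N)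
      (IntermediateField.topEquiv (F := K) (E := N)).symm.toAlgHom
  let i : N →ₐ[K] Sep F := IsSepClosed.lift
  letI : Algebra N (Sep F) := i.toRingHom.toAlgebra
  haveI : IsScalarTower K N (Sep F) := IsScalarTower.of_algebraMap_eq fun x => (i.commutes x).symm
  exact critN (R := R) H HL hT hg hfm hℓk hS hirr hθ hNtop hpts

end main

end Pool.Agent.Y160.SE
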