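import Pool.Agent.Y160.SE.LocC

/-!
# The ideals of rational points
-/

set_option autoImplicit false
set_option linter.all false

open Polynomial IsDedekindDomain WithZero
open scoped nonZeroDivisors Classical

namespace Pool.Agent.Y160.SE

section pt

variable {ℓ : ℕ} {E : Type} [Field E] {f : E[X]} {ζ : E}

/-- The value at the point `(x, y)`. -/
noncomputable def evP (ℓ : ℕ) (f : E[X]) (x y : E) (h : y ^ ℓ = f.eval x) : CR ℓ f →+* E :=
  AdjoinRoot.lift (evalRingHom x) y (by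
    rw [eval₂_sub, eval₂_X_pow, eval₂_C, coe_evalRingHom, h, sub_self])

@[simp] theorem evP_xp {x y : E} (h : y ^ ℓ = f.eval x) (p : E[X]) :
    evP ℓ f x y h (xp ℓ f p) = p.eval x := by
  unfold evP
  rw [AdjoinRoot.lift_of]
  rfl

@[simp] theorem evP_yy {x y : E} (h : y ^ ℓ = f.eval x) : evP ℓ f x y h (yy ℓ f) = y := by
  unfold evP
  rw [AdjoinRoot.lift_root]

/-- The ideal of the point `(x, y)`. -/
noncomputable def ptI (ℓ : ℕ) (f : E[X]) (x y : E) : Ideal (CR ℓ f) :=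
  Ideal.span {xp ℓ f (X - C x), yy ℓ f - xp ℓ f (C y)}

theorem ptI_eq {x y : E} (h : y ^ ℓ = f.eval x) : ptI ℓ f x y = RingHom.ker (evP ℓ f x y h) := by
  apply le_antisymm
  · unfold ptI
    rw [Ideal.span_le]
    rintro z (rfl | rfl)
    · rw [SetLike.mem_coe, RingHom.mem_ker, evP_xp]; simp
    · rw [SetLike.mem_coe, RingHom.mem_ker, map_sub, evP_xp, evP_yy]; simp
  · intro z hz
    rw [RingHom.mem_ker] at hz
    obtain ⟨p, rfl⟩ := cr_mem z
    have h1 : (yy ℓ f - xp ℓ f (C y)) ∣ AdjoinRoot.mk (X ^ ℓ - C f : E[X][X]) p -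
        xp ℓ f (p.eval (C y)) := by
      obtain ⟨q, hq⟩ := X_sub_C_dvd_sub_C_eval (p := p) (a := C y)
      refine ⟨AdjoinRoot.mk _ q, ?_⟩
      have h3 := congrArg (AdjoinRoot.mk (X ^ ℓ - C f : E[X][X])) hq
      rw [map_sub, map_mul, map_sub] at h3
      exact h3
    obtain ⟨q, hq⟩ := h1
    have h4 := congrArg (evP ℓ f x y h) hq
    rw [map_sub, hz, evP_xp, map_mul, map_sub, evP_yy, evP_xp, eval_C, sub_self, zero_mul,
      zero_sub, neg_eq_zero] at h4
    obtain ⟨r, hr⟩ := dvd_iff_isRoot.2 h4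
    have h5 : AdjoinRoot.mk (X ^ ℓ - C f : E[X][X]) p = xp ℓ f r * xp ℓ f (X - C x) +
        q * (yy ℓ f - xp ℓ f (C y)) := by
      rw [← xp_mul, mul_comm r, ← hr]
      linear_combination hq
    unfold ptI
    rw [h5, Ideal.mem_span_pair]
    exact ⟨_, _, rfl⟩

theorem ptI_cop {x y : E} (hy : y ≠ 0) : ptI ℓ f x y ⊔ Ideal.span {yy ℓ f} = ⊤ := by
  rw [Ideal.eq_top_iff_one]
  have h1 : (1 : CR ℓ f) = (-xp ℓ f (C y⁻¹)) * (yy ℓ f - xp ℓ f (C y)) + xp ℓ f (C y⁻¹) * yy ℓ f := by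
    have : xp ℓ f (C y⁻¹) * xp ℓ f (C y) = 1 := by
      rw [← xp_mul, ← C_mul, inv_mul_cancel₀ hy, C_1, xp_one]
    linear_combination -this
  rw [h1]
  refine Ideal.add_mem _ (Ideal.mem_sup_left (Ideal.mul_mem_left _ _ (Ideal.subset_span ?_)))
    (Ideal.mem_sup_right (Ideal.mul_mem_left _ _ (Ideal.subset_span rfl)))
  exact Or.inr rfl

theorem ptI_norm (hM : StMax) (hg : Good ℓ ζ f) {x y : E} (h : y ^ ℓ = f.eval x) (hy : y ≠ 0) :
    ∏ i ∈ Finset.range ℓ, (ptI ℓ f x y).map (hg.tw ^ i) = Ideal.span {xp ℓ f (X - C x)} := by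
  have hprime : (ptI ℓ f x y).IsPrime := by
    rw [ptI_eq h]
    exact RingHom.ker_isPrime _
  have hmem : xp ℓ f (X - C x) ∈ ptI ℓ f x y := Ideal.subset_span (Or.inl rfl)
  have hmemy : yy ℓ f - xp ℓ f (C y) ∈ ptI ℓ f x y := Ideal.subset_span (Or.inr rfl)
  have hne : ptI ℓ f x y ≠ ⊥ := by
    intro h0
    rw [h0, Ideal.mem_bot] at hmem
    have := xp_inj hg.prime.ne_zero (hmem.trans xp_zero.symm)
    exact X_sub_C_ne_zero x this
  have hfx : f.eval x ≠ 0 := by rw [← h]; exact pow_ne_zero _ hy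
  obtain ⟨p, hp, hpm, hcase⟩ := hM ℓ E ζ f hg (ptI ℓ f x y) hprime hne
  -- `p = X - x`
  have hpe : xp ℓ f p ∈ ptI ℓ f x y → p = X - C x := by
    intro h1
    rw [ptI_eq h, RingHom.mem_ker, evP_xp] at h1
    obtain ⟨q, hq⟩ := dvd_iff_isRoot.2 h1
    have h3 : Associated (X - C x) p := by
      have h5 : (X - C x) ∣ p := ⟨q, hq⟩
      exact (irreducible_X_sub_C x).associated_of_dvd hp h5
    exact (eq_of_monic_of_associated (monic_X_sub_C x) hpm h3).symm
  rcases hcase with ⟨h1, h3⟩ | ⟨h1, c, h3, h4, h5⟩ | ⟨h1, h3, h4⟩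
  · exfalso
    have hp' := hpe (by rw [h3]; exact Ideal.subset_span rfl)
    have hζ : (ζ * y) ^ ℓ = f.eval x := by rw [mul_pow, hg.root.pow_eq_one, one_mul, h]
    rw [h3, Ideal.mem_span_singleton] at hmemy
    obtain ⟨q, hq⟩ := hmemy
    have h6 := congrArg (evP ℓ f x (ζ * y) hζ) hq
    rw [map_sub, evP_yy, evP_xp, eval_C, map_mul, evP_xp, hp', eval_sub, eval_X, eval_C, sub_self,
      zero_mul] at h6
    have h7 : (ζ - 1) * y = 0 := by linear_combination h6
    rcases mul_eq_zero.1 h7 with h8 | h8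
    · exact hg.root.ne_one hg.prime.one_lt (sub_eq_zero.1 h8)
    · exact hy h8
  · have hp' := hpe (by rw [h4]; exact Ideal.subset_span (Or.inl rfl))
    rw [← hp']
    exact h5
  · exfalso
    have hp' := hpe (by rw [h3]; exact Ideal.subset_span (Or.inl rfl))
    rw [hp'] at h1
    exact hfx (dvd_iff_isRoot.1 h1)

/-- The ideal of a divisor of points. -/
noncomputable def dvI (ℓ : ℕ) (f : E[X]) (S : Multiset (E × E)) : Ideal (CR ℓ f) :=
  (S.map fun P => ptI ℓ f P.1 P.2).prod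

theorem dvI_cop {S : Multiset (E × E)} (hS : ∀ P ∈ S, P.2 ≠ 0) :
    dvI ℓ f S ⊔ Ideal.span {yy ℓ f} = ⊤ := by
  induction S using Multiset.induction_on with
  | empty => unfold dvI; rw [Multiset.map_zero, Multiset.prod_zero, Ideal.one_eq_top, top_sup_eq]
  | cons P S ih =>
    unfold dvI at *
    rw [Multiset.map_cons, Multiset.prod_cons]
    rw [Ideal.mul_sup_eq_of_coprime_left (ptI_cop (hS P (Multiset.mem_cons_self P S)))]
    exact ih fun Q hQ => hS Q (Multiset.mem_cons_of_mem hQ)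

/-- The polynomial of a divisor of points. -/
noncomputable def dvP (S : Multiset (E × E)) : E[X] := (S.map fun P => X - C P.1).prod

theorem dvI_norm (hM : StMax) (hg : Good ℓ ζ f) {S : Multiset (E × E)}
    (hS : ∀ P ∈ S, P.2 ^ ℓ = f.eval P.1 ∧ P.2 ≠ 0) :
    ∏ i ∈ Finset.range ℓ, (dvI ℓ f S).map (hg.tw ^ i) = Ideal.span {xp ℓ f (dvP S)} := by
  induction S using Multiset.induction_on with
  | empty =>
    unfold dvI dvP
    rw [Multiset.map_zero, Multiset.prod_zero, Multiset.map_zero, Multiset.prod_zero, xp_one,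
      Ideal.span_singleton_one, ← Ideal.one_eq_top]
    have h1 : ∏ i ∈ Finset.range ℓ, (1 : Ideal (CR ℓ f)).map (hg.tw ^ i) = 1 :=
      Finset.prod_eq_one fun i _ => by rw [Ideal.one_eq_top, Ideal.map_top]
    exact h1
  | cons P S ih =>
    have h1 := ih fun Q hQ => hS Q (Multiset.mem_cons_of_mem hQ)
    obtain ⟨h3, h4⟩ := hS P (Multiset.mem_cons_self P S)
    have h5 := ptI_norm hM hg h3 h4
    unfold dvI dvP at *
    rw [Multiset.map_cons, Multiset.prod_cons, Multiset.map_cons, Multiset.prod_cons, xp_mul,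
      ← Ideal.span_singleton_mul_span_singleton, ← h5, ← h1, ← Finset.prod_mul_distrib]
    refine Finset.prod_congr rfl fun i _ => ?_
    rw [Ideal.map_mul]

theorem dvP_lp {S : Multiset (E × E)} (hS : ∀ P ∈ S, P.2 ^ ℓ = f.eval P.1 ∧ f.eval P.1 ≠ 0) :
    LP ℓ f (dvP S) := by
  refine ⟨1, S.map fun P => X - C P.1, isCoprime_one_left, fun p hp => ?_, ?_⟩
  · obtain ⟨P, hP, rfl⟩ := Multiset.mem_map.1 hp
    obtain ⟨h1, h3⟩ := hS P hP
    refine ⟨monic_X_sub_C _, irreducible_X_sub_C _, fun h => h3 (dvd_iff_isRoot.1 h), C P.2, ?_⟩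
    rw [dvd_iff_isRoot, IsRoot.def, eval_sub, eval_pow, eval_C, h1, sub_self]
  · rw [one_pow, one_mul]; rfl

theorem dvP_eval {Ω : Type} [Field Ω] [Algebra E Ω] (S : Multiset (E × E)) (a : Ω) :
    aeval a (dvP S) = (S.map fun P => a - algebraMap E Ω P.1).prod := by
  unfold dvP
  rw [map_multiset_prod, Multiset.map_map]
  congr 1
  apply Multiset.map_congr rfl
  intro P _
  show aeval a (X - C P.1) = _
  rw [map_sub, aeval_X, aeval_C]

end pt

end Pool.Agent.Y160.SE
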