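import Pool.Agent.Y160.SE.Par
import Pool.Agent.Y160.SE.PtI
import Pool.Agent.TH115.TC.Unram2
import Pool.Agent.TH115.GD.Ext

/-!
# The criterion, with the fields and rings as parameters
-/

set_option autoImplicit false
set_option linter.all false

open Polynomial IsDedekindDomain WithZero
open scoped nonZeroDivisors Classical

namespace Pool.Agent.Y160.SE

open Pool.Agent.TH115.GD (incl rs ak Sep Comp CompInf IsTower rs_mul Preserves exists_conj lift_fix
  cont_rs exists_restrict exists_aut exists_kappa exists_compl_map sepKΩ preserves exists_over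
  val_unram)
open Pool.Agent.W309.TD (locConst_apply compare)

section const

variable {k k' : Type} [Field k] [Field k'] [Algebra k k']

/-- An `ℓ`-th root in the separable closure of the constants. -/
theorem const_root [IsSepClosed k'] {ℓ : ℕ} (hℓ : (ℓ : k') ≠ 0) (c : k) :
    ∃ s : k', s ^ ℓ = algebraMap k k' c := by
  haveI : NeZero (ℓ : k') := ⟨hℓ⟩
  exact IsSepClosed.exists_pow_nat_eq _ ℓ

end const

section crit

variable {ℓ : ℕ} {k k' K F N M R B : Type} [Field k] [Field k'] [Algebra k k'] [Field K]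
  [Algebra k[X] K]
  [Field F] [Algebra k'[X] F] [IsFractionRing k'[X] F] [Algebra K F]
  [Field N] [Algebra K N] [Algebra N (Sep F)] [IsScalarTower K N (Sep F)]
  [Field M] [Algebra F M] [Algebra K M] [IsScalarTower K F M] [Algebra M (Sep F)]
  [IsScalarTower F M (Sep F)]
  [Algebra N M] [IsScalarTower N M (Sep F)]
  [Algebra k N] [Algebra k' M] [Algebra k M] [IsScalarTower k k' M] [IsScalarTower k N M]
  [CommRing R] [IsDedekindDomain R] [Algebra R N] [IsFractionRing R N]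
  [CommRing B] [IsDedekindDomain B] [Algebra B M] [IsFractionRing B M]
  [Algebra R B] [Algebra R M] [IsScalarTower R N M] [IsScalarTower R B M]
  [Algebra.IsIntegral R B] [Module.IsTorsionFree R B] [Algebra k' B] [IsScalarTower k' B M]
  [Algebra k'[X] B] [Algebra.IsIntegral k'[X] B] [Algebra k'[X] M] [IsScalarTower k'[X] F M]
  [IsScalarTower k'[X] B M] [Module.IsTorsionFree k'[X] B]

variable (B)

include B

/-- The first layer of a Tate class is given by an element of `N` whose valuations are `ℓ`-th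
powers. -/
theorem layer (H : Hyps) (HL : LHyps) (hT : IsTower k k' K F) {f : k[X][X]} {ζ : K}
    (hg : Good ℓ ζ (f.map (algebraMap k[X] K))) (hfm : f.Monic) (hℓk : (ℓ : k') ≠ 0)
    (hS : SmoothC f) (hirr : Irreducible ((f.map (algebraMap k[X] K)).map (algebraMap K F)))
    {a : Sep F} (ha : Rt (f.map (algebraMap k[X] K)) a)
    {θ : N} (hθ : algebraMap N (Sep F) θ = a) (hNtop : IntermediateField.adjoin K {θ} = ⊤)
    (htop : IntermediateField.adjoin N (Set.range (algebraMap k' M)) = ⊤)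
    {e : ℕ → (Sep F ≃ₐ[F] Sep F) → Jac ℓ (f.map (algebraMap k[X] K)) (Sep F)}
    (he : IsTateClass ℓ k' _ e) :
    ∃ (t : Sep F) (z : N), t ≠ 0 ∧ z ≠ 0 ∧ t ^ ℓ = algebraMap N (Sep F) z ∧
      (∀ σ : Sep F ≃ₐ[F] Sep F, σ a = a →
        σ t = chi hg a (pe hg (Sep F) ((1 - X) ^ (ℓ - 2)) (e 1 σ)) * t) ∧
      ∀ v : HeightOneSpectrum R, IsPw ℓ (v.valuation N z) := by
  haveI := hT.sep
  haveI := hT.fracK
  haveI : IsSepClosed k' := IsSepClosure.sep_closed k
  haveI : IsGalois k k' := inferInstance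
  have hKF := hT.map
  haveI : IsSepClosure K (Sep F) := sepKΩ hKF
  haveI : Algebra.IsSeparable K (Sep F) := IsSepClosure.separable
  haveI : IsGalois K (Sep F) := inferInstance
  let d : (Sep F ≃ₐ[F] Sep F) → Jac ℓ (f.map (algebraMap k[X] K)) (Sep F) :=
    fun σ => pe hg (Sep F) ((1 - X) ^ (ℓ - 2)) (e 1 σ)
  have hd : IsCoc ℓ _ d := (he.tc.coc 1).pe hg _
  have hd2 : ∀ σ, Tor hg (d σ) := first_tor H hg he.tc
  have hdl : LocallyTrivial ℓ k' _ d := ⟨fun v => ((he.loc 1).1 v).pe hg _, (he.loc 1).2.pe hg _⟩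
  have hdi : InvOne hg d := first_inv H hg hirr (preserves hKF) he.tc he.inv
  obtain ⟨g, hgl, hmul, hg2, hgF⟩ := ext_coc H hg hirr (preserves hKF) hd hd2 hdi
  obtain ⟨t, z, ht, hz, hk⟩ := kummerN H hg ha hθ hNtop hgl hmul hg2
  have hz0 : z ≠ 0 := by
    rintro rfl
    rw [map_zero] at hz
    exact pow_ne_zero ℓ ht hz
  have hkF : ∀ σ : Sep F ≃ₐ[F] Sep F, σ a = a → σ t = chi hg a (d σ) * t := by
    intro σ hσ
    have h1 := hk (σ.restrictScalars K) hσ
    rw [hgF] at h1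
    exact h1
  refine ⟨t, z, ht, hz0, hz, hkF, fun v => ?_⟩
  obtain ⟨w, rfl⟩ := exists_over (B := B) v
  rw [← val_unram k (R := R) htop w]
  have hθM : algebraMap M (Sep F) (algebraMap N M θ) = a := by
    rw [← IsScalarTower.algebraMap_apply N M (Sep F), hθ]
  exact parM H HL hKF hg hfm hℓk hS hθM ha hd hd2 hdl ht (by
    rw [← IsScalarTower.algebraMap_apply N M (Sep F), hz]) hkF w

/-- **The criterion** for the Tate conjecture at `ℓ`, with the fields and rings as parameters. -/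
theorem critM (H : Hyps) (HL : LHyps) (hT : IsTower k k' K F) {f : k[X][X]} {ζ : K}
    (hg : Good ℓ ζ (f.map (algebraMap k[X] K))) (hfm : f.Monic) (hℓk : (ℓ : k') ≠ 0)
    (hS : SmoothC f) (hirr : Irreducible ((f.map (algebraMap k[X] K)).map (algebraMap K F)))
    {a : Sep F} (ha : Rt (f.map (algebraMap k[X] K)) a)
    {θ : N} (hθ : algebraMap N (Sep F) θ = a) (hNtop : IntermediateField.adjoin K {θ} = ⊤)
    (htop : IntermediateField.adjoin N (Set.range (algebraMap k' M)) = ⊤)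
    (hkN : ∀ x : k, algebraMap N (Sep F) (algebraMap k N x) =
      algebraMap F (Sep F) (algebraMap k'[X] F (C (algebraMap k k' x))))
    (hpts : ∀ z : N, z ≠ 0 → (∀ v : HeightOneSpectrum R, IsPw ℓ (v.valuation N z)) →
      ∃ (u : k) (g : N) (S : Multiset (K × K)), u ≠ 0 ∧ g ≠ 0 ∧
        (∀ P ∈ S, P.2 ^ ℓ = (f.map (algebraMap k[X] K)).eval P.1) ∧
        z = algebraMap k N u * g ^ ℓ * (S.map fun P => θ - algebraMap K N P.1).prod) :
    TateAt (F := F) ℓ k' (f.map (algebraMap k[X] K)) := by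
  haveI := hT.sep
  haveI := hT.fracK
  haveI : IsSepClosed k' := IsSepClosure.sep_closed k
  haveI : IsGalois k k' := inferInstance
  have hKF := hT.map
  haveI : IsSepClosure K (Sep F) := sepKΩ hKF
  haveI : Algebra.IsSeparable K (Sep F) := IsSepClosure.separable
  haveI : IsGalois K (Sep F) := inferInstance
  set f1 := f.map (algebraMap k[X] K) with hf1
  refine tate_of_first H hg fun e he => ?_
  obtain ⟨t, z, ht, hz0, hz, hk, hev⟩ := layer (M := M) (R := R) B H HL hT hg hfm hℓk hS hirr ha hθ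
    hNtop htop he
  obtain ⟨u, g, S, hu, hg0, hSp, hze⟩ := hpts z hz0 hev
  let d : (Sep F ≃ₐ[F] Sep F) → Jac ℓ f1 (Sep F) :=
    fun σ => pe hg (Sep F) ((1 - X) ^ (ℓ - 2)) (e 1 σ)
  have hd : IsCoc ℓ _ d := (he.tc.coc 1).pe hg _
  have hd2 : ∀ σ, Tor hg (d σ) := first_tor H hg he.tc
  -- no point of `S` is a ramified point
  have hS0 : ∀ P ∈ S, θ - algebraMap K N P.1 ≠ 0 := by
    intro P hP h0
    apply hz0
    rw [hze, Multiset.prod_eq_zero (Multiset.mem_map.2 ⟨P, hP, h0⟩), mul_zero]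
  have hirrK : Irreducible f1 := by
    have hinj : Function.Injective (algebraMap K F) := (algebraMap K F).injective
    exact Polynomial.Monic.irreducible_of_irreducible_map (algebraMap K F) f1 hg.monic hirr
  have hSf : ∀ P ∈ S, f1.eval P.1 ≠ 0 := by
    intro P hP h0
    have h1 : X - C P.1 ∣ f1 := dvd_iff_isRoot.2 h0
    have h3 := (irreducible_X_sub_C P.1).associated_of_dvd hirrK h1
    have h4 := eq_of_monic_of_associated (monic_X_sub_C P.1) hg.monic h3
    apply hS0 P hP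
    apply (algebraMap N (Sep F)).injective
    rw [map_sub, hθ, ← IsScalarTower.algebraMap_apply K N (Sep F), map_zero]
    have h5 : aeval a f1 = 0 := ha
    rw [← h4, map_sub, aeval_X, aeval_C] at h5
    exact h5
  -- the multiple
  obtain ⟨m, hm⟩ : ∃ m : ℕ, f1.natDegree * m % ℓ = 1 := by
    obtain ⟨m, -, hm⟩ := Nat.exists_mul_mod_eq_one_of_coprime hg.cop.symm hg.prime.one_lt
    exact ⟨m, hm⟩
  -- over `K`
  have hKK : f1.map (algebraMap K K) = f1 := by rw [Algebra.algebraMap_self, Polynomial.map_id]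
  let T : Multiset (K × K) := m • S
  have hTp : ∀ P ∈ T, P.2 ^ ℓ = (f1.map (algebraMap K K)).eval P.1 ∧ P.2 ≠ 0 := by
    intro P hP
    have hP' : P ∈ S := Multiset.mem_of_mem_nsmul hP
    refine ⟨by rw [hKK]; exact hSp P hP', fun h0 => ?_⟩
    have h1 := hSp P hP'
    rw [h0, zero_pow hg.prime.ne_zero] at h1
    exact hSf P hP' h1.symm
  have hTf : ∀ P ∈ T, P.2 ^ ℓ = (f1.map (algebraMap K K)).eval P.1 ∧
      (f1.map (algebraMap K K)).eval P.1 ≠ 0 := by
    intro P hP
    refine ⟨(hTp P hP).1, ?_⟩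
    rw [← (hTp P hP).1]
    exact pow_ne_zero _ (hTp P hP).2
  let I : Ideal (CR ℓ (f1.map (algebraMap K K))) := dvI ℓ _ T
  have hIc : I ⊔ Ideal.span {yy ℓ (f1.map (algebraMap K K))} = ⊤ := dvI_cop fun P hP => (hTp P hP).2
  have hIne : I ≠ ⊥ := by
    intro h0
    have h1 := dvI_norm (ℓ := ℓ) H.max (hg.up K) (S := T) hTp
    haveI := H.ring ℓ K _ _ (hg.up K)
    have h3 : (0 : ℕ) ∈ Finset.range ℓ := Finset.mem_range.2 hg.prime.pos
    have h4 : dvI ℓ (f1.map (algebraMap K K)) T = ⊥ := h0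
    rw [h4] at h1
    have h5 : ∏ i ∈ Finset.range ℓ, (⊥ : Ideal (CR ℓ (f1.map (algebraMap K K)))).map
        ((hg.up K).tw ^ i) = ⊥ := by
      refine Finset.prod_eq_zero h3 ?_
      rw [Ideal.map_bot]; rfl
    rw [h5] at h1
    have h6 := (Ideal.span_singleton_eq_bot.1 h1.symm)
    have h7 := xp_inj hg.prime.ne_zero (h6.trans xp_zero.symm)
    unfold dvP at h7
    rw [Multiset.prod_eq_zero_iff, Multiset.mem_map] at h7
    obtain ⟨P, -, hP⟩ := h7
    exact X_sub_C_ne_zero _ hP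
  obtain ⟨P, hIP⟩ := cl_exists (f := f1) H hg hIne
  have hN := dvI_norm (ℓ := ℓ) H.max (hg.up K) (S := T) hTp
  have hLP := dvP_lp hTf
  obtain ⟨R0, hR0⟩ := lam_surj H hg (jm ℓ f1 (incl K K (Sep F)) P)
  obtain ⟨t', ht1, ht2⟩ := kcJ H hg hIP hIc (lp_coprime hLP) hN hR0
  obtain ⟨ht0, hG0, hteq⟩ := ht1 a ha
  have PK : ∀ φ : Sep F →ₐ[K] Sep F, jm ℓ f1 φ (jm ℓ f1 (incl K K (Sep F)) P) =
      jm ℓ f1 (incl K K (Sep F)) P := by
    intro φ
    have h1 : φ.comp (incl K K (Sep F)) = incl K K (Sep F) := AlgHom.ext fun x => φ.commutes x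
    rw [jm_jm, h1]
  have hTor : ∀ φ : Sep F →ₐ[K] Sep F, Tor hg (jm ℓ f1 φ R0 - R0) := by
    intro φ
    unfold Tor
    rw [map_sub, ← jm_pe, hR0, PK, sub_self]
  -- the norm of `dvP T`
  have hspl : ((f1.map (algebraMap K K)).map (algebraMap K (Sep F))).Splits := by
    rw [hKK]; exact splits_up hg
  obtain ⟨y, hy⟩ := lp_norm (hg.up K).monic hspl hLP
  rw [hKK] at hy
  -- the value at `a`
  set G : Sep F := (S.map fun P => a - algebraMap K (Sep F) P.1).prod with hG
  have hGT : aeval a (dvP T) = G ^ m := by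
    rw [dvP_eval, hG]
    show ((m • S).map fun P => a - algebraMap K (Sep F) P.1).prod = _
    rw [Multiset.map_nsmul, Multiset.prod_nsmul]
  have hG0' : G ≠ 0 := by
    intro h0
    rw [hG, Multiset.prod_eq_zero_iff, Multiset.mem_map] at h0
    obtain ⟨P, hP, h0⟩ := h0
    apply hS0 P hP
    apply (algebraMap N (Sep F)).injective
    rw [map_sub, hθ, ← IsScalarTower.algebraMap_apply K N (Sep F), map_zero]
    exact h0
  obtain ⟨q, hq⟩ : ∃ q : ℕ, m * f1.natDegree = ℓ * q + 1 := by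
    refine ⟨f1.natDegree * m / ℓ, ?_⟩
    have := Nat.div_add_mod (f1.natDegree * m) ℓ
    rw [hm] at this
    rw [mul_comm m]
    exact this.symm
  have hGpow : aeval a (dvP T) ^ f1.natDegree = (G ^ q) ^ ℓ * G := by
    rw [hGT, ← pow_mul, hq, pow_succ, pow_mul, ← pow_mul, ← pow_mul, mul_comm ℓ q]
  rw [hGpow] at hteq
  -- the sign
  obtain ⟨ε, hε, hyε⟩ : ∃ ε : k, ε ≠ 0 ∧ ((f1.map (algebraMap K (Sep F))).roots.map
      fun β => aeval β (dvP T)).prod = algebraMap N (Sep F) (algebraMap k N ε) *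
        algebraMap K (Sep F) y ^ ℓ := by
    rcases hy with h | h
    · exact ⟨1, one_ne_zero, by rw [h, map_one, map_one, one_mul, map_pow]⟩
    · exact ⟨-1, neg_ne_zero.2 one_ne_zero, by rw [h, map_neg, map_one, map_neg, map_one,
        neg_one_mul, map_pow]⟩
  rw [hyε] at hteq
  have hε' : algebraMap N (Sep F) (algebraMap k N ε) ≠ 0 :=
    (_root_.map_ne_zero _).2 ((_root_.map_ne_zero _).2 hε)
  obtain ⟨s, hs⟩ := const_root (k := k) (k' := k') hℓk (u * ε)
  set sF : Sep F := algebraMap F (Sep F) (algebraMap k'[X] F (C s)) with hsF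
  have hsF' : sF ^ ℓ = algebraMap N (Sep F) (algebraMap k N u) *
      algebraMap N (Sep F) (algebraMap k N ε) := by
    rw [hsF, ← map_pow, ← map_pow, ← C_pow, hs, ← map_mul, ← map_mul, hkN]
  set w : Sep F := sF * algebraMap N (Sep F) g * algebraMap K (Sep F) y / G ^ q with hw
  have hGq : (G ^ q) ≠ 0 := pow_ne_zero _ hG0'
  have hz' : t ^ ℓ = (w * t' a) ^ ℓ := by
    have h1 : algebraMap N (Sep F) z = algebraMap N (Sep F) (algebraMap k N u) *
        algebraMap N (Sep F) g ^ ℓ * G := by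
      rw [hze, map_mul, map_mul, map_pow, map_multiset_prod, Multiset.map_map, hG]
      congr 2
      apply Multiset.map_congr rfl
      intro P _
      show algebraMap N (Sep F) (θ - algebraMap K N P.1) = _
      rw [map_sub, hθ, ← IsScalarTower.algebraMap_apply K N (Sep F)]
    have h3 : G = t' a ^ ℓ * (algebraMap N (Sep F) (algebraMap k N ε) *
        algebraMap K (Sep F) y ^ ℓ) / (G ^ q) ^ ℓ := by
      rw [hteq, mul_div_cancel_left₀ _ (pow_ne_zero _ hGq)]
    rw [hz, h1, hw, mul_pow, div_pow, mul_pow, mul_pow, hsF']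
    conv_lhs => rw [h3]
    ring
  have hy0 : algebraMap K (Sep F) y ≠ 0 := by
    intro h0
    rw [h0, zero_pow hg.prime.ne_zero, mul_zero, mul_zero] at hteq
    exact (mul_ne_zero (pow_ne_zero _ hGq) hG0') hteq.symm
  have hsF0 : sF ≠ 0 := by
    intro h0
    rw [h0, zero_pow hg.prime.ne_zero] at hsF'
    rcases mul_eq_zero.1 hsF'.symm with h | h
    · exact hu ((_root_.map_eq_zero _).1 ((_root_.map_eq_zero _).1 h))
    · exact hε' h
  have hg0' : algebraMap N (Sep F) g ≠ 0 := (_root_.map_ne_zero _).2 hg0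
  have hw0 : w ≠ 0 := div_ne_zero (mul_ne_zero (mul_ne_zero hsF0 hg0') hy0) hGq
  have hwt : w * t' a ≠ 0 := mul_ne_zero hw0 ht0
  obtain ⟨i, hi⟩ : ∃ i : ℕ, t = algebraMap K (Sep F) (ζ ^ i) * (w * t' a) := by
    have h1 : (t / (w * t' a)) ^ ℓ = 1 := by
      rw [div_pow, hz', div_self (pow_ne_zero _ hwt)]
    haveI := NeZero.mk hg.prime.ne_zero
    obtain ⟨i, -, hi⟩ := (hg.up (Sep F)).root.eq_pow_of_pow_eq_one h1
    refine ⟨i, ?_⟩
    rw [map_pow, hi, div_mul_cancel₀ _ hwt]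
  have hfixN : ∀ σ : Sep F ≃ₐ[F] Sep F, σ a = a → ∀ y : N,
      σ (algebraMap N (Sep F) y) = algebraMap N (Sep F) y := by
    intro σ hσ y
    obtain ⟨τ', hτ'⟩ := lift_fix hNtop (σ.restrictScalars K) (by rw [hθ]; exact hσ)
    have h1 := hτ' (algebraMap N (Sep F) y)
    rw [τ'.commutes] at h1
    exact h1.symm
  have hfixK : ∀ (σ : Sep F ≃ₐ[F] Sep F) (y : K),
      σ (algebraMap K (Sep F) y) = algebraMap K (Sep F) y := by
    intro σ y
    exact (rs K σ).commutes y
  have hwfix : ∀ σ : Sep F ≃ₐ[F] Sep F, σ a = a → σ w = w := by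
    intro σ hσ
    rw [hw, map_div₀, map_mul, map_mul, hfixN σ hσ, hfixK, map_pow, hsF, σ.commutes]
    have h1 : σ G = G := by
      rw [hG, map_multiset_prod, Multiset.map_map]
      congr 1
      apply Multiset.map_congr rfl
      intro P _
      show σ (a - algebraMap K (Sep F) P.1) = _
      rw [map_sub, hσ, hfixK]
    rw [h1]
  have hs1 : ∀ σ : Sep F ≃ₐ[F] Sep F, σ a = a →
      chi hg a (d σ - (jm ℓ f1 (rs K σ) R0 - R0)) = 1 := by
    intro σ hσ
    have h1 := hk σ hσ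
    let σK : Sep F ≃ₐ[K] Sep F := σ.restrictScalars K
    have e1 : rs K σK = rs K σ := AlgHom.ext fun x => rfl
    have h3 := ht2 σK a ha (by rw [e1]; exact hTor _)
    have e2 : σK a = a := hσ
    rw [e1, e2] at h3
    have h3' : σ (t' a) = chi hg a (jm ℓ f1 (rs K σ) R0 - R0) * t' a := h3
    have h4 : σ t = chi hg a (jm ℓ f1 (rs K σ) R0 - R0) * t := by
      rw [hi, map_mul, map_mul, hfixK, hwfix σ hσ, h3']
      ring
    rw [h4] at h1
    have h5 := mul_right_cancel₀ ht h1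
    rw [chi_sub H hg (hd2 σ) (hTor _) ha]
    show chi hg a (d σ) / _ = 1
    rw [← h5, div_self (chi_ne H hg (hTor _) ha)]
  have hcoc' : IsCoc ℓ f1 (fun σ => d σ - (jm ℓ f1 (rs K σ) R0 - R0)) :=
    hd.sub (cob_isCoc H hg R0)
  obtain ⟨R', hR', hR''⟩ := cob1 H hg hirr ha hcoc'.mul (fun σ => (hd2 σ).sub (hTor _)) hs1
  refine ⟨P, R0 + R', ?_, fun σ => ?_⟩
  · have h1 : pe hg (Sep F) (1 - X) R' = 0 := hR'
    rw [map_add, hR0, h1, add_zero]
  · have h1 : d σ - (jm ℓ f1 (rs K σ) R0 - R0) = jm ℓ f1 (rs K σ) R' - R' := hR'' σ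
    rw [sub_eq_iff_eq_add] at h1
    show d σ = _
    rw [h1, map_add]
    abel

end crit

end Pool.Agent.Y160.SE
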