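import Pool.Agent.Y160.SE.ChiJ
import Pool.Agent.TH115.TC.Ext

/-!
# The first layer of a Tate class: invariance and extension to `Gal(Ω / K)`
-/

set_option autoImplicit false
set_option linter.all false

open Polynomial IsDedekindDomain
open scoped nonZeroDivisors Classical

namespace Pool.Agent.Y160.SE

open Pool.Agent.TH115.GD (incl rs ak Sep Comp CompInf IsTower rs_mul Preserves exists_conj)

section coprime

theorem eq_one_of_pows {M : Type*} [Field M] {c : M} {a b : ℕ} (hab : a.Coprime b) (h1 : c ^ a = 1)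
    (h2 : c ^ b = 1) : c = 1 := by
  have h3 := orderOf_dvd_of_pow_eq_one h1
  have h4 := orderOf_dvd_of_pow_eq_one h2
  have h5 := Nat.dvd_gcd h3 h4
  rw [hab] at h5
  exact orderOf_eq_one_iff.1 (Nat.dvd_one.1 h5)

end coprime

section tors

variable {ℓ : ℕ} {K F Ω : Type} [Field K] [Field F] [Field Ω] [Algebra K F] [Algebra F Ω]
  [Algebra K Ω] [IsScalarTower K F Ω] [IsGalois F Ω] [IsSepClosed Ω] {f : K[X]} {ζ : K} (H : Hyps)
  (hg : Good ℓ ζ f) (hirr : Irreducible (f.map (algebraMap K F)))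

omit [IsGalois F Ω] in
include hg in
theorem exists_rt (Ω : Type) [Field Ω] [Algebra K Ω] [IsSepClosed Ω] : ∃ a : Ω, Rt f a := by
  have h1 : (f.map (algebraMap K Ω)).degree ≠ 0 := by
    intro h
    have h3 : (f.map (algebraMap K Ω)).natDegree = 0 := natDegree_eq_of_degree_eq_some h
    rw [natDegree_map] at h3
    have h4 := hg.cop
    rw [h3, Nat.coprime_zero_right] at h4
    exact hg.prime.ne_one h4
  obtain ⟨a, ha⟩ := (splits_up hg (Ω := Ω)).exists_eval_eq_zero h1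
  exact ⟨a, rt_of ha⟩

omit [IsSepClosed Ω] in
include hg hirr in
theorem trans_rt {a b : Ω} (ha : Rt f a) (hb : Rt f b) : ∃ ρ : Ω ≃ₐ[F] Ω, ρ a = b := by
  have hm : (f.map (algebraMap K F)).Monic := hg.monic.map _
  have ra : aeval a (f.map (algebraMap K F)) = 0 := by
    rw [aeval_map_algebraMap]; exact ha
  have rb : aeval b (f.map (algebraMap K F)) = 0 := by
    rw [aeval_map_algebraMap]; exact hb
  have m1 := minpoly.eq_of_irreducible_of_monic hirr ra hm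
  have m3 := minpoly.eq_of_irreducible_of_monic hirr rb hm
  have : IsConjRoot F b a := by
    rw [IsConjRoot, ← m1, ← m3]
  exact this.exists_algEquiv

include H hg hirr

/-- There are no fixed classes killed by `1 - σ`. -/
theorem no_tor {x : Jac ℓ f Ω} (hx : Tor hg x) (hf : ∀ σ : Ω ≃ₐ[F] Ω, jm ℓ f (rs K σ) x = x) :
    x = 0 := by
  obtain ⟨a, ha⟩ := exists_rt hg Ω
  have hconst : ∀ β, Rt f β → chi hg β x = chi hg a x := by
    intro β hβ
    obtain ⟨ρ, rfl⟩ := trans_rt hg hirr ha hβ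
    have h1 := chi_map H hg hx ha (rs K ρ)
    rw [hf ρ, chi_fix' H hg hx ha] at h1
    exact h1
  have hp := chi_prod H hg hx
  have h2 : ((f.map (algebraMap K Ω)).roots.map fun β => chi hg β x) =
      Multiset.replicate f.natDegree (chi hg a x) := by
    rw [Multiset.eq_replicate]
    refine ⟨?_, fun b hb => ?_⟩
    · rw [Multiset.card_map, ← (splits_up hg (Ω := Ω)).natDegree_eq_card_roots, natDegree_map]
    · obtain ⟨β, hβ, rfl⟩ := Multiset.mem_map.1 hb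
      exact hconst β (rt_of ((mem_roots (hg.up Ω).monic.ne_zero).1 hβ))
  rw [h2, Multiset.prod_replicate] at hp
  have hone : chi hg a x = 1 := eq_one_of_pows hg.cop (chi_pow H hg hx ha) hp
  exact chi_inj H hg hx fun β hβ => by rw [hconst β hβ, hone]

theorem no_lam (N : ℕ) : ∀ x : Jac ℓ f Ω, pe hg Ω ((1 - X) ^ N) x = 0 →
    (∀ σ : Ω ≃ₐ[F] Ω, jm ℓ f (rs K σ) x = x) → x = 0 := by
  induction N with
  | zero =>
    intro x h _
    rwa [pow_zero, pe_one] at h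
  | succ N ih =>
    intro x h hf
    have h1 : pe hg Ω ((1 - X) ^ N) (pe hg Ω (1 - X) x) = 0 := by
      rw [← pe_mul, ← pow_succ, h]
    have h3 := ih _ h1 (fun σ => by rw [jm_pe, hf])
    exact no_tor H hg hirr h3 hf

theorem no_pow (m : ℕ) (x : Jac ℓ f Ω) (h : ℓ ^ m • x = 0)
    (hf : ∀ σ : Ω ≃ₐ[F] Ω, jm ℓ f (rs K σ) x = x) : x = 0 := by
  obtain ⟨W, hW⟩ := exists_W1' H hg
  have hWn : ∀ (n : ℕ) (x : Jac ℓ f Ω), pe hg Ω ((1 - X) ^ ((ℓ - 1) * n)) x =
      pe hg Ω (W ^ n) (ℓ ^ n • x) := by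
    intro n
    induction n with
    | zero => intro x; rw [mul_zero, pow_zero, pow_zero, pow_zero, one_smul]
    | succ n ih =>
      intro x
      rw [mul_add, mul_one, pow_add, pe_mul, hW, ih, pow_succ W, pe_mul, pow_succ ℓ, mul_smul,
        ← map_nsmul, ← map_nsmul, smul_comm]
  refine no_lam H hg hirr ((ℓ - 1) * m) x ?_ hf
  rw [hWn, h, map_zero]

end tors

section ext

variable {ℓ : ℕ} {K F Ω : Type} [Field K] [Field F] [Field Ω] [Algebra K F] [Algebra F Ω]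
  [Algebra K Ω] [IsScalarTower K F Ω] [IsGalois F Ω] [IsGalois K Ω] [IsSepClosed Ω] {f : K[X]}
  {ζ : K} (H : Hyps) (hg : Good ℓ ζ f) (hirr : Irreducible (f.map (algebraMap K F)))
  (hN : Preserves K F Ω)

/-- The class of `c` is fixed, in the first layer. -/
def InvOne (hg : Good ℓ ζ f) (c : (Ω ≃ₐ[F] Ω) → Jac ℓ f Ω) : Prop :=
  ∀ τ : Ω ≃ₐ[K] Ω, ∃ R : Jac ℓ f Ω, Tor hg R ∧ ∀ σ σ' : Ω ≃ₐ[F] Ω, (∀ x, τ (σ' x) = σ (τ x)) →
    jm ℓ f (ak τ) (c σ') - c σ = jm ℓ f (rs K σ) R - R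

include H in
omit [Algebra K F] [Field F] [Algebra F Ω] [IsScalarTower K F Ω] [IsGalois F Ω] [IsGalois K Ω] in
/-- An automorphism which fixes the roots fixes the classes killed by `1 - σ`. -/
theorem fix_tor {φ : Ω →ₐ[K] Ω} (hφ : ∀ β, Rt f β → φ β = β) {x : Jac ℓ f Ω} (hx : Tor hg x) :
    jm ℓ f φ x = x := by
  refine chi_ext H hg (hx.map φ) hx fun β hβ => ?_
  have h1 := chi_map H hg hx hβ φ
  rw [hφ β hβ, chi_fix' H hg hx hβ] at h1
  exact h1

include H hg hirr hN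

/-- The extension of the cocycle. -/
theorem ext_coc {c : (Ω ≃ₐ[F] Ω) → Jac ℓ f Ω} (hc : IsCoc ℓ f c) (hc2 : ∀ σ, Tor hg (c σ))
    (hi : InvOne hg c) : ∃ g : (Ω ≃ₐ[K] Ω) → Jac ℓ f Ω, IsLocallyConstant g ∧
      (∀ σ τ, g (σ * τ) = g σ + jm ℓ f (ak σ) (g τ)) ∧ (∀ τ, Tor hg (g τ)) ∧
      ∀ σ : Ω ≃ₐ[F] Ω, g (σ.restrictScalars K) = c σ := by
  -- the relation
  set Rel : (Ω ≃ₐ[K] Ω) → Jac ℓ f Ω → Prop := fun τ R => Tor hg R ∧
    ∀ σ σ' : Ω ≃ₐ[F] Ω, (∀ x, τ (σ' x) = σ (τ x)) →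
      jm ℓ f (ak τ) (c σ') - c σ = jm ℓ f (rs K σ) R - R with hRel
  have ex : ∀ τ, ∃ R, Rel τ R := fun τ => hi τ
  have uniq : ∀ τ R R', Rel τ R → Rel τ R' → R = R' := by
    rintro τ R R' ⟨h1, h3⟩ ⟨h4, h5⟩
    have : R - R' = 0 := by
      refine no_tor H hg hirr (h1.sub h4) ?_
      intro σ
      obtain ⟨σ', hσ'⟩ := exists_conj hN τ σ
      have h6 := (h3 σ σ' hσ').symm.trans (h5 σ σ' hσ')
      rw [map_sub]
      have h7 : jm ℓ f (rs K σ) R - jm ℓ f (rs K σ) R' - (R - R') =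
        (jm ℓ f (rs K σ) R - R) - (jm ℓ f (rs K σ) R' - R') := by abel
      rw [← sub_eq_zero, h7, h6, sub_self]
    exact sub_eq_zero.1 this
  choose g hgR using ex
  have hgmul : ∀ σ τ, g (σ * τ) = g σ + jm ℓ f (ak σ) (g τ) := by
    intro τ1 τ2
    refine uniq (τ1 * τ2) _ _ (hgR _) ⟨(hgR τ1).1.add ((hgR τ2).1.map _), fun σ σ'' h => ?_⟩
    obtain ⟨σ', hσ'⟩ := exists_conj hN τ1 σ
    have h1 : ∀ x, τ2 (σ'' x) = σ' (τ2 x) := by
      intro x
      apply τ1.injective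
      rw [hσ']
      exact h x
    have e1 := (hgR τ2).2 σ' σ'' h1
    have e2 := (hgR τ1).2 σ σ' hσ'
    have e3 : jm ℓ f (ak (τ1 * τ2)) (c σ'') = jm ℓ f (ak τ1) (jm ℓ f (ak τ2) (c σ'')) := by
      rw [jm_jm]; rfl
    have e4 : jm ℓ f (ak τ2) (c σ'') = c σ' + (jm ℓ f (rs K σ') (g τ2) - g τ2) := by
      rw [← e1]; abel
    have e5 : jm ℓ f (ak τ1) (c σ') = c σ + (jm ℓ f (rs K σ) (g τ1) - g τ1) := by
      rw [← e2]; abel
    have e6 : jm ℓ f (ak τ1) (jm ℓ f (rs K σ') (g τ2)) =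
        jm ℓ f (rs K σ) (jm ℓ f (ak τ1) (g τ2)) := by
      have h5 : (ak τ1).comp (rs K σ') = (rs K σ).comp (ak τ1) := AlgHom.ext fun x => hσ' x
      rw [jm_jm, jm_jm, h5]
    rw [e3, e4, map_add, map_sub, e5, e6, map_add]
    abel
  have hgF : ∀ σ : Ω ≃ₐ[F] Ω, g (σ.restrictScalars K) = c σ := by
    intro σ0
    refine uniq _ _ _ (hgR _) ⟨hc2 σ0, fun σ σ' h => ?_⟩
    have h1 : σ0 * σ' = σ * σ0 := AlgEquiv.ext fun x => h x
    have h3 := hc.mul σ0 σ'
    rw [h1, hc.mul] at h3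
    have h4 : jm ℓ f (ak (σ0.restrictScalars K)) (c σ') = jm ℓ f (rs K σ0) (c σ') := rfl
    rw [h4]
    have h5 : jm ℓ f (rs K σ0) (c σ') = c σ + jm ℓ f (rs K σ) (c σ0) - c σ0 := by
      rw [h3]; abel
    rw [h5]; abel
  refine ⟨g, ?_, hgmul, fun τ => (hgR τ).1, hgF⟩
  -- continuity
  have f1 : c 1 = 0 := by
    have := hc.mul 1 1
    rw [mul_one] at this
    have e : jm ℓ f (rs K (1 : Ω ≃ₐ[F] Ω)) (c 1) = c 1 := by
      have h1 : rs K (1 : Ω ≃ₐ[F] Ω) = AlgHom.id K Ω := AlgHom.ext fun x => rfl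
      rw [h1, jm_id]
    rw [e] at this
    exact left_eq_add.1 this
  have hopen : {σ : Ω ≃ₐ[F] Ω | c σ = 0} ∈ nhds (1 : Ω ≃ₐ[F] Ω) :=
    (hc.lc.isOpen_fiber 0).mem_nhds f1
  obtain ⟨E, hE, hEs⟩ := (krullTopology_mem_nhds_one_iff F Ω _).1 hopen
  haveI : Algebra.IsSeparable F E := inferInstance
  obtain ⟨α, hα⟩ := Field.exists_primitive_element F E
  have hgen : ∀ ρ : Ω ≃ₐ[F] Ω, ρ (α : Ω) = α → c ρ = 0 := by
    intro ρ hρ
    apply hEs
    show ρ ∈ E.fixingSubgroup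
    rw [IntermediateField.mem_fixingSubgroup_iff]
    intro x hx
    have key : (ρ.toAlgHom.comp E.val) = E.val := by
      refine AlgHom.ext fun y => ?_
      have hy : y ∈ (⊤ : IntermediateField F E) := trivial
      rw [← hα] at hy
      refine IntermediateField.adjoin_induction F
        (p := fun y _ => (ρ.toAlgHom.comp E.val) y = E.val y) ?_ ?_ ?_ ?_ ?_ hy
      · intro y hy
        rw [Set.mem_singleton_iff] at hy
        subst hy
        exact hρ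
      · intro y
        rw [AlgHom.commutes, AlgHom.commutes]
      · intro x y _ _ hx hy
        rw [map_add, map_add, hx, hy]
      · intro x _ hx
        rw [map_inv₀, map_inv₀, hx]
      · intro x y _ _ hx hy
        rw [map_mul, map_mul, hx, hy]
    exact DFunLike.congr_fun key ⟨x, hx⟩
  -- the open subgroup
  set S : Finset Ω := ((minpoly K (α : Ω)).aroots Ω).toFinset with hS
  have hαint : IsIntegral K (α : Ω) := Algebra.IsIntegral.isIntegral _
  have hSmem : ∀ σ : Ω ≃ₐ[F] Ω, σ (α : Ω) ∈ S := by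
    intro σ
    rw [hS, Multiset.mem_toFinset, mem_aroots]
    refine ⟨minpoly.ne_zero hαint, ?_⟩
    have h1 : aeval (rs K σ (α : Ω)) (minpoly K (α : Ω)) = 0 := by
      rw [aeval_algHom_apply, minpoly.aeval, map_zero]
    exact h1
  set S' : Finset Ω := (f.aroots Ω).toFinset ∪ S with hS'
  have hUopen : IsOpen (⋂ x ∈ S', (MulAction.stabilizer (Ω ≃ₐ[K] Ω) x : Set (Ω ≃ₐ[K] Ω))) :=
    isOpen_biInter_finset fun x _ => stabilizer_isOpen_of_isIntegral (K := K) x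
  set U := ⋂ x ∈ S', (MulAction.stabilizer (Ω ≃ₐ[K] Ω) x : Set (Ω ≃ₐ[K] Ω)) with hU
  have hUmem : ∀ τ ∈ U, ∀ x ∈ S', τ x = x := by
    intro τ hτ x hx
    rw [hU, Set.mem_iInter₂] at hτ
    exact hτ x hx
  have hU0 : ∀ τ ∈ U, g τ = 0 := by
    intro τ hτ
    have hfx := hUmem τ hτ
    refine uniq τ _ _ (hgR τ) ⟨Tor.zero, fun σ σ' h => ?_⟩
    rw [map_zero, sub_zero]
    have h1 : jm ℓ f (ak τ) (c σ') = c σ' := by
      refine fix_tor H hg (fun β hβ => ?_) (hc2 σ')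
      refine hfx β ?_
      rw [hS', Finset.mem_union, Multiset.mem_toFinset, mem_aroots]
      exact Or.inl ⟨hg.monic.ne_zero, hβ⟩
    have h3 : σ' (α : Ω) = σ (α : Ω) := by
      have h4 : τ (σ' (α : Ω)) = σ' (α : Ω) := hfx _ (by
        rw [hS', Finset.mem_union]
        exact Or.inr (hSmem σ'))
      have h5 : τ (α : Ω) = α := by
        have := hSmem 1
        exact hfx _ (by
          rw [hS', Finset.mem_union]
          exact Or.inr this)
      have h6 := h (α : Ω)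
      rw [h4, h5] at h6
      exact h6
    have h4 : c (σ⁻¹ * σ') = 0 := hgen _ (by
      rw [AlgEquiv.mul_apply, h3, ← AlgEquiv.mul_apply, inv_mul_cancel]
      rfl)
    have h5 := hc.mul σ (σ⁻¹ * σ')
    rw [h4, map_zero, add_zero] at h5
    have h6 : σ * (σ⁻¹ * σ') = σ' := by group
    rw [h6] at h5
    rw [h1, h5, sub_self]
  rw [IsLocallyConstant.iff_exists_open]
  intro τ
  refine ⟨(fun x => τ⁻¹ * x) ⁻¹' U, hUopen.preimage (continuous_const.mul continuous_id), ?_, ?_⟩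
  · show τ⁻¹ * τ ∈ U
    rw [inv_mul_cancel, hU, Set.mem_iInter₂]
    intro x _
    exact (MulAction.stabilizer (Ω ≃ₐ[K] Ω) x).one_mem
  · intro τ' hτ'
    have h1 : τ' = τ * (τ⁻¹ * τ') := by group
    rw [h1, hgmul, hU0 _ hτ', map_zero, add_zero]

end ext

section first

variable {ℓ : ℕ} {K F Ω : Type} [Field K] [Field F] [Field Ω] [Algebra K F] [Algebra F Ω]
  [Algebra K Ω] [IsScalarTower K F Ω] [IsGalois F Ω] [IsGalois K Ω] [IsSepClosed Ω] {f : K[X]}
  {ζ : K} (H : Hyps) (hg : Good ℓ ζ f) (hirr : Irreducible (f.map (algebraMap K F)))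
  (hN : Preserves K F Ω)

include H in
omit [IsGalois F Ω] [IsGalois K Ω] [IsSepClosed Ω] in
/-- The first layer is killed by `1 - σ`. -/
theorem first_tor {c : ℕ → (Ω ≃ₐ[F] Ω) → Jac ℓ f Ω} (hc : IsTC ℓ f c) (σ : Ω ≃ₐ[F] Ω) :
    Tor hg (pe hg Ω ((1 - X) ^ (ℓ - 2)) (c 1 σ)) := by
  obtain ⟨W, hW⟩ := exists_W1' H hg
  have h2 := hg.prime.two_le
  unfold Tor
  rw [← pe_mul, ← pow_succ', show ℓ - 2 + 1 = ℓ - 1 by omega, hW, ← map_nsmul,
    show (1 : ℕ) = 0 + 1 from rfl, hc.step, hc.zero, map_zero]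

include H hg hirr hN

/-- The first layer is fixed. -/
theorem first_inv {c : ℕ → (Ω ≃ₐ[F] Ω) → Jac ℓ f Ω} (hc : IsTC ℓ f c) (hi : IsInv ℓ f c) :
    InvOne hg (fun σ => pe hg Ω ((1 - X) ^ (ℓ - 2)) (c 1 σ)) := by
  intro τ
  obtain ⟨m, Q, hQ, hinv⟩ := hi τ
  obtain ⟨W, hW⟩ := exists_W1' H hg
  have h2 := hg.prime.two_le
  have hpow : ∀ (k n : ℕ) (σ), ℓ ^ k • c (k + n) σ = c n σ := by
    intro k
    induction k with
    | zero => intro n σ; rw [pow_zero, one_smul, zero_add]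
    | succ k ih =>
      intro n σ
      rw [pow_succ, mul_smul, show k + 1 + n = (k + n) + 1 by omega, hc.step, ih]
  have hQpow : ∀ (k : ℕ), ℓ ^ k • Q k = 0 := by
    intro k
    induction k with
    | zero => rw [hQ.zero, smul_zero]
    | succ k ih =>
      rw [pow_succ, mul_smul, hQ.step, ih]
  have hQm : Q m = 0 := by
    refine no_pow H hg hirr m (Q m) (hQpow m) fun σ => ?_
    obtain ⟨σ', hσ'⟩ := exists_conj hN τ σ
    have h1 := hinv m σ σ' hσ'
    have h3 := hpow m 0 σ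
    have h4 := hpow m 0 σ'
    rw [add_zero, hc.zero] at h3 h4
    rw [smul_sub, ← map_nsmul, h3, h4, map_zero, sub_zero] at h1
    exact (sub_eq_zero.1 h1.symm)
  have hQ1 : ℓ • Q (m + 1) = 0 := by rw [hQ.step, hQm]
  refine ⟨pe hg Ω ((1 - X) ^ (ℓ - 2)) (Q (m + 1)), ?_, fun σ σ' h => ?_⟩
  · unfold Tor
    rw [← pe_mul, ← pow_succ', show ℓ - 2 + 1 = ℓ - 1 by omega, hW, ← map_nsmul, hQ1, map_zero]
  · have h1 := hinv (m + 1) σ σ' h
    rw [smul_sub, ← map_nsmul, hpow m 1, hpow m 1] at h1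
    rw [jm_pe, ← map_sub, h1, map_sub, jm_pe]

end first

end Pool.Agent.Y160.SE
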