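import Pool.Agent.Y160.SE.TDefs
import Pool.Agent.Y160.SE.Stmts
import Pool.Agent.Y160.SE.Basic

/-!
# The group `J(Ω)`: classes of ideals, the twist, the ring `ℤ[σ]`
-/

set_option autoImplicit false
set_option linter.all false

open Polynomial IsDedekindDomain
open scoped nonZeroDivisors

namespace Pool.Agent.Y160.SE

open Pool.Agent.TH115.GD (incl rs ak Sep Comp CompInf IsTower)

/-- The lemmas on superelliptic curves which are used. -/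
structure Hyps : Prop where
  ring : StRing
  norm : StNorm
  max : StMax
  nmi : StNmI
  move : StMove
  div : StDiv
  desc : StDesc
  chiA : StChiA
  chiF : StChiF
  chiI : StChiI
  chiS : StChiS
  kc : StKC
  pic : StPic

section jm

variable {ℓ : ℕ} {K Ω Ω' Ω'' : Type} [Field K] [Field Ω] [Field Ω'] [Field Ω''] [Algebra K Ω]
  [Algebra K Ω'] [Algebra K Ω''] {f : K[X]}

theorem map_alg (φ : Ω →ₐ[K] Ω') : (f.map (algebraMap K Ω)).map (φ : Ω →+* Ω') =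
    f.map (algebraMap K Ω') := by rw [Polynomial.map_map, φ.comp_algebraMap]

/-- The homomorphism of the coordinate rings. -/
noncomputable abbrev cm (ℓ : ℕ) (f : K[X]) (φ : Ω →ₐ[K] Ω') :
    CR ℓ (f.map (algebraMap K Ω)) →+* CR ℓ (f.map (algebraMap K Ω')) :=
  crMap ℓ (φ : Ω →+* Ω') _ _ (map_alg φ)

theorem jm_eq (φ : Ω →ₐ[K] Ω') (x : Jac ℓ f Ω) :
    jm ℓ f φ x = Additive.ofMul (CommRing.Pic.mapRingHom (cm ℓ f φ) x.toMul) := rfl

theorem cm_comp (φ : Ω →ₐ[K] Ω') (ψ : Ω' →ₐ[K] Ω'') :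
    cm ℓ f (ψ.comp φ) = (cm ℓ f ψ).comp (cm ℓ f φ) := by
  apply cr_hom_ext
  · intro c; simp [cm]
  · simp [cm]
  · simp [cm]

theorem jm_jm (φ : Ω →ₐ[K] Ω') (ψ : Ω' →ₐ[K] Ω'') (x : Jac ℓ f Ω) :
    jm ℓ f ψ (jm ℓ f φ x) = jm ℓ f (ψ.comp φ) x := by
  rw [jm_eq, jm_eq, jm_eq, cm_comp]
  congr 1
  exact CommRing.Pic.mapRingHom_mapRingHom

theorem jm_id (x : Jac ℓ f Ω) : jm ℓ f (AlgHom.id K Ω) x = x := by
  rw [jm_eq]
  have h : cm ℓ f (AlgHom.id K Ω) = RingHom.id _ := by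
    apply cr_hom_ext
    · intro c; simp [cm]
    · simp [cm]
    · simp [cm]
  rw [h, CommRing.Pic.mapRingHom_id]
  rfl

end jm

section sg

variable {ℓ : ℕ} {K Ω Ω' : Type} [Field K] [Field Ω] [Field Ω'] [Algebra K Ω]
  [Algebra K Ω'] {f : K[X]} {ζ : K} (hg : Good ℓ ζ f)

/-- The hypotheses over `Ω`. -/
theorem Good.up (hg : Good ℓ ζ f) (Ω : Type) [Field Ω] [Algebra K Ω] :
    Good ℓ (algebraMap K Ω ζ) (f.map (algebraMap K Ω)) := hg.map (algebraMap K Ω) rfl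

/-- The automorphism `σ` of `J(Ω)`. -/
noncomputable def sg (Ω : Type) [Field Ω] [Algebra K Ω] : AddMonoid.End (Jac ℓ f Ω) :=
  MonoidHom.toAdditive (CommRing.Pic.mapRingHom (hg.up Ω).tw)

/-- The action of `ℤ[σ]` on `J(Ω)`. -/
noncomputable def pe (Ω : Type) [Field Ω] [Algebra K Ω] (p : ℤ[X]) : AddMonoid.End (Jac ℓ f Ω) :=
  aeval (sg hg Ω) p

theorem pe_mul (p q : ℤ[X]) (x : Jac ℓ f Ω) : pe hg Ω (p * q) x = pe hg Ω p (pe hg Ω q x) := by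
  unfold pe
  rw [map_mul]; rfl

theorem pe_add (p q : ℤ[X]) (x : Jac ℓ f Ω) : pe hg Ω (p + q) x = pe hg Ω p x + pe hg Ω q x := by
  unfold pe
  rw [map_add]; rfl

theorem pe_sub (p q : ℤ[X]) (x : Jac ℓ f Ω) : pe hg Ω (p - q) x = pe hg Ω p x - pe hg Ω q x := by
  unfold pe
  rw [map_sub]; rfl

theorem pe_one (x : Jac ℓ f Ω) : pe hg Ω 1 x = x := by
  unfold pe
  rw [map_one]; rfl

theorem pe_nat (n : ℕ) (x : Jac ℓ f Ω) : pe hg Ω (n : ℤ[X]) x = n • x := by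
  unfold pe
  rw [map_natCast]
  exact AddMonoid.End.natCast_apply n x

theorem pe_X (x : Jac ℓ f Ω) : pe hg Ω X x = sg hg Ω x := by
  unfold pe
  rw [aeval_X]

theorem pe_comm (p q : ℤ[X]) (x : Jac ℓ f Ω) :
    pe hg Ω p (pe hg Ω q x) = pe hg Ω q (pe hg Ω p x) := by
  rw [← pe_mul, ← pe_mul, mul_comm]

theorem jm_sg (φ : Ω →ₐ[K] Ω') (x : Jac ℓ f Ω) : jm ℓ f φ (sg hg Ω x) = sg hg Ω' (jm ℓ f φ x) := by
  show Additive.ofMul (CommRing.Pic.mapRingHom (cm ℓ f φ)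
    (CommRing.Pic.mapRingHom (hg.up Ω).tw x.toMul)) =
    Additive.ofMul (CommRing.Pic.mapRingHom (hg.up Ω').tw
    (CommRing.Pic.mapRingHom (cm ℓ f φ) x.toMul))
  rw [CommRing.Pic.mapRingHom_mapRingHom, CommRing.Pic.mapRingHom_mapRingHom]
  have key : (cm ℓ f φ).comp (hg.up Ω).tw = (hg.up Ω').tw.comp (cm ℓ f φ) := by
    apply cr_hom_ext
    · intro c; simp [cm]
    · simp [cm]
    · simp [cm]
  rw [key]

theorem jm_pe (φ : Ω →ₐ[K] Ω') (p : ℤ[X]) (x : Jac ℓ f Ω) :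
    jm ℓ f φ (pe hg Ω p x) = pe hg Ω' p (jm ℓ f φ x) := by
  induction p using Polynomial.induction_on' generalizing x with
  | add p q hp hq => rw [pe_add, pe_add, map_add, hp, hq]
  | monomial n c =>
    induction n generalizing x with
    | zero =>
      rw [monomial_zero_left]
      unfold pe
      rw [aeval_C, aeval_C, Algebra.algebraMap_eq_smul_one, Algebra.algebraMap_eq_smul_one]
      show jm ℓ f φ (c • x) = c • (jm ℓ f φ x)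
      rw [map_zsmul]
    | succ n ih =>
      have e : (monomial (n + 1) c : ℤ[X]) = monomial n c * X := by
        rw [monomial_mul_X]
      rw [e, pe_mul, pe_mul, ih, pe_X, pe_X, jm_sg]

end sg

section cls

variable {ℓ : ℕ} {K Ω Ω' : Type} [Field K] [Field Ω] [Field Ω'] [Algebra K Ω]
  [Algebra K Ω'] {f : K[X]} {ζ : K} (H : Hyps) (hg : Good ℓ ζ f)

/-- The class of an ideal. -/
def IsCl (Ω : Type) [Field Ω] [Algebra K Ω] (I : Ideal (CR ℓ (f.map (algebraMap K Ω))))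
    (x : Jac ℓ f Ω) : Prop :=
  ∃ (h : IsDedekindDomain (CR ℓ (f.map (algebraMap K Ω)))) (hI : I ≠ ⊥),
    x = Additive.ofMul (ClassGroup.equivPic _ (ClassGroup.mk0 ⟨I, mem_nonZeroDivisors_of_ne_zero hI⟩))

include H hg

theorem exists_cl (x : Jac ℓ f Ω) : ∃ I : Ideal (CR ℓ (f.map (algebraMap K Ω))), I ≠ ⊥ ∧ IsCl Ω I x := by
  haveI := H.ring ℓ Ω _ _ (hg.up Ω)
  obtain ⟨⟨I, hI⟩, h⟩ := ClassGroup.mk0_surjective ((ClassGroup.equivPic _).symm x.toMul)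
  have hI0 : I ≠ ⊥ := nonZeroDivisors.ne_zero hI
  refine ⟨I, hI0, inferInstance, hI0, ?_⟩
  rw [h, MulEquiv.apply_symm_apply]
  rfl

theorem cl_exists {I : Ideal (CR ℓ (f.map (algebraMap K Ω)))} (hI : I ≠ ⊥) :
    ∃ x : Jac ℓ f Ω, IsCl Ω I x := by
  haveI := H.ring ℓ Ω _ _ (hg.up Ω)
  exact ⟨_, inferInstance, hI, rfl⟩

omit H hg in
theorem IsCl.ne {I : Ideal (CR ℓ (f.map (algebraMap K Ω)))} {x : Jac ℓ f Ω} (h : IsCl Ω I x) :
    I ≠ ⊥ := h.2.1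

theorem cl_eq_iff {I J : Ideal (CR ℓ (f.map (algebraMap K Ω)))} {x y : Jac ℓ f Ω}
    (hx : IsCl Ω I x) (hy : IsCl Ω J y) : x = y ↔ Eqv I J := by
  obtain ⟨h1, hI, rfl⟩ := hx
  obtain ⟨h2, hJ, rfl⟩ := hy
  rw [EmbeddingLike.apply_eq_iff_eq, EmbeddingLike.apply_eq_iff_eq, ClassGroup.mk0_eq_mk0_iff]
  constructor
  · rintro ⟨a, b, ha, hb, h⟩
    exact ⟨a, b, ha, hb, h⟩
  · rintro ⟨a, b, ha, hb, h⟩
    exact ⟨a, b, ha, hb, h⟩

theorem cl_mul {I J : Ideal (CR ℓ (f.map (algebraMap K Ω)))} {x y : Jac ℓ f Ω}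
    (hx : IsCl Ω I x) (hy : IsCl Ω J y) : IsCl Ω (I * J) (x + y) := by
  obtain ⟨h1, hI, rfl⟩ := hx
  obtain ⟨h2, hJ, rfl⟩ := hy
  have hIJ : I * J ≠ ⊥ := by
    intro h
    rcases Ideal.mul_eq_bot.1 h with h | h
    · exact hI h
    · exact hJ h
  refine ⟨h1, hIJ, ?_⟩
  rw [← ofMul_mul, ← map_mul, ← map_mul]
  rfl

theorem cl_top : IsCl Ω (⊤ : Ideal (CR ℓ (f.map (algebraMap K Ω)))) (0 : Jac ℓ f Ω) := by
  haveI := H.ring ℓ Ω _ _ (hg.up Ω)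
  refine ⟨inferInstance, top_ne_bot, ?_⟩
  have : (⟨⊤, mem_nonZeroDivisors_of_ne_zero top_ne_bot⟩ :
    (Ideal (CR ℓ (f.map (algebraMap K Ω))))⁰) = 1 := Subtype.ext (Ideal.one_eq_top).symm
  rw [this, map_one, map_one]
  rfl

theorem cl_zero_iff {I : Ideal (CR ℓ (f.map (algebraMap K Ω)))} {x : Jac ℓ f Ω}
    (hx : IsCl Ω I x) : x = 0 ↔ Eqv I ⊤ := cl_eq_iff H hg hx (cl_top H hg)

theorem cl_map {I : Ideal (CR ℓ (f.map (algebraMap K Ω)))} {x : Jac ℓ f Ω}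
    (hx : IsCl Ω I x) (φ : Ω →ₐ[K] Ω') : IsCl Ω' (I.map (cm ℓ f φ)) (jm ℓ f φ x) := by
  obtain ⟨h1, hI, rfl⟩ := hx
  haveI := H.ring ℓ Ω' _ _ (hg.up Ω')
  have hinj : Function.Injective (cm ℓ f φ) := crMap_inj hg.prime.ne_zero _ _
  have hI' : I.map (cm ℓ f φ) ≠ ⊥ := by
    rw [Ne, Ideal.map_eq_bot_iff_of_injective hinj]
    exact hI
  refine ⟨inferInstance, hI', ?_⟩
  rw [jm_eq, toMul_ofMul, H.pic _ _ _ hinj I hI hI']

theorem cl_sg {I : Ideal (CR ℓ (f.map (algebraMap K Ω)))} {x : Jac ℓ f Ω}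
    (hx : IsCl Ω I x) : IsCl Ω (I.map (hg.up Ω).tw) (sg hg Ω x) := by
  obtain ⟨h1, hI, rfl⟩ := hx
  have hinj : Function.Injective (hg.up Ω).tw := by
    intro a b h
    have h4 : (hg.up Ω).tw ^ (ℓ - 1) * (hg.up Ω).tw = 1 := by
      rw [← pow_succ, Nat.sub_add_cancel hg.prime.one_le]
      exact tw_pow_ℓ _
    have h5 : ∀ z, ((hg.up Ω).tw ^ (ℓ - 1)) ((hg.up Ω).tw z) = z := fun z =>
      congrArg (fun g : CR ℓ (f.map (algebraMap K Ω)) →+* CR ℓ (f.map (algebraMap K Ω)) => g z) h4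
    rw [← h5 a, ← h5 b, h]
  have hI' : I.map (hg.up Ω).tw ≠ ⊥ := by
    rw [Ne, Ideal.map_eq_bot_iff_of_injective hinj]
    exact hI
  refine ⟨h1, hI', ?_⟩
  show Additive.ofMul (CommRing.Pic.mapRingHom (hg.up Ω).tw _) = _
  rw [toMul_ofMul, H.pic _ _ _ hinj I hI hI']

end cls

end Pool.Agent.Y160.SE
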