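import Pool.Agent.Y160.SE.Glob
import Pool.Agent.TH115.TC.KumN

/-!
# The Kummer generator of the first layer, and the trivial classes
-/

set_option autoImplicit false
set_option linter.all false

open Polynomial IsDedekindDomain
open scoped nonZeroDivisors Classical

namespace Pool.Agent.Y160.SE

open Pool.Agent.TH115.GD (incl rs ak Sep Comp CompInf IsTower rs_mul Preserves exists_conj lift_fix
  cont_rs)
open Pool.Agent.W309.TD (locConst_apply compare)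

section h90

variable {K Ω : Type} [Field K] [Field Ω] [Algebra K Ω] [IsGalois K Ω]

/-- Hilbert's theorem 90 for characters with values in `K`. -/
theorem exists_root_l (χ : (Ω ≃ₐ[K] Ω) → K) (hχ : ∀ σ, χ σ ≠ 0)
    (hmul : ∀ σ τ, χ (σ * τ) = χ σ * χ τ) (hc : IsLocallyConstant χ) :
    ∃ s : Ω, s ≠ 0 ∧ ∀ σ : Ω ≃ₐ[K] Ω, σ s = algebraMap K Ω (χ σ) * s := by
  have h1 : χ 1 = 1 := by
    have := hmul 1 1
    rw [mul_one] at this
    exact (mul_eq_left₀ (hχ 1)).1 this.symm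
  have hopen : {σ : Ω ≃ₐ[K] Ω | χ σ = 1} ∈ nhds (1 : Ω ≃ₐ[K] Ω) :=
    (hc.isOpen_fiber 1).mem_nhds h1
  obtain ⟨E, hE, hEs⟩ := (krullTopology_mem_nhds_one_iff K Ω _).1 hopen
  let M : IntermediateField K Ω := IntermediateField.normalClosure K E Ω
  haveI : FiniteDimensional K M := inferInstance
  haveI : IsGalois K M := inferInstance
  have hEM : E ≤ M := E.le_normalClosure
  have hker : ∀ ρ : Ω ≃ₐ[K] Ω, (∀ x : M, ρ x = x) → χ ρ = 1 := by
    intro ρ hρ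
    apply hEs
    show ρ ∈ E.fixingSubgroup
    rw [IntermediateField.mem_fixingSubgroup_iff]
    intro x hx
    exact hρ ⟨x, hEM hx⟩
  have hsurj : Function.Surjective (AlgEquiv.restrictNormalHom (F := K) (K₁ := Ω) M) :=
    AlgEquiv.restrictNormalHom_surjective Ω
  have hres : ∀ (ρ : Ω ≃ₐ[K] Ω) (x : M), ((AlgEquiv.restrictNormalHom M ρ) x : Ω) = ρ x :=
    fun ρ x => AlgEquiv.restrictNormal_commutes ρ M x
  let lft := Function.surjInv hsurj
  have hlft : ∀ g, AlgEquiv.restrictNormalHom M (lft g) = g := Function.surjInv_eq hsurj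
  have hdep : ∀ σ τ : Ω ≃ₐ[K] Ω, AlgEquiv.restrictNormalHom M σ = AlgEquiv.restrictNormalHom M τ →
      χ σ = χ τ := by
    intro σ τ h
    have h3 : χ (σ⁻¹ * τ) = 1 := by
      apply hker
      intro x
      have h4 := hres (σ⁻¹ * τ) x
      rw [map_mul, map_inv, h, inv_mul_cancel] at h4
      exact h4.symm
    have h5 : σ * (σ⁻¹ * τ) = τ := by group
    rw [← h5, hmul, h3, mul_one]
  let fb : (M ≃ₐ[K] M) → Mˣ := fun g => Units.mk0 (algebraMap K M (χ (lft g)))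
    ((_root_.map_ne_zero _).2 (hχ _))
  have hco : groupCohomology.IsMulCocycle₁ fb := by
    intro g h
    apply Units.ext
    show algebraMap K M (χ (lft (g * h))) = g (algebraMap K M (χ (lft h))) *
      algebraMap K M (χ (lft g))
    have h3 : χ (lft (g * h)) = χ (lft g * lft h) := by
      apply hdep
      rw [hlft, map_mul, hlft, hlft]
    rw [h3, hmul, map_mul, g.commutes, mul_comm]
  obtain ⟨b, hb⟩ := groupCohomology.isMulCoboundary₁_of_isMulCocycle₁_of_aut_to_units fb hco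
  refine ⟨((b : M) : Ω), ?_, fun σ => ?_⟩
  · intro h
    exact b.ne_zero (Subtype.ext h)
  · have h3 := hb (AlgEquiv.restrictNormalHom M σ)
    have h4 : (AlgEquiv.restrictNormalHom M σ) (b : M) =
        algebraMap K M (χ (lft (AlgEquiv.restrictNormalHom M σ))) * b := by
      rw [div_eq_iff_eq_mul] at h3
      exact congrArg (fun u : Mˣ => (u : M)) h3
    have h6 : χ (lft (AlgEquiv.restrictNormalHom M σ)) = χ σ := hdep _ _ (hlft _)
    rw [h6] at h4
    have h7 : (((AlgEquiv.restrictNormalHom M σ) (b : M) : M) : Ω) =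
        ((algebraMap K M (χ σ) * b : M) : Ω) := congrArg (fun x : M => (x : Ω)) h4
    rw [hres] at h7
    rw [h7]
    rfl

end h90

section kummer

variable {ℓ : ℕ} {K N Ω : Type} [Field K] [Field N] [Field Ω] [Algebra K N] [Algebra N Ω]
  [Algebra K Ω] [IsScalarTower K N Ω] [IsGalois K Ω] [IsSepClosed Ω] {f : K[X]} {ζ : K} (H : Hyps)
  (hg : Good ℓ ζ f)

include H hg

/-- The Kummer generator. -/
theorem kummerN {θ : N} {a : Ω} (ha : Rt f a) (hθ : algebraMap N Ω θ = a)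
    (htop : IntermediateField.adjoin K {θ} = ⊤) {g : (Ω ≃ₐ[K] Ω) → Jac ℓ f Ω}
    (hgl : IsLocallyConstant g) (hmul : ∀ σ τ, g (σ * τ) = g σ + jm ℓ f (ak σ) (g τ))
    (hg2 : ∀ τ, Tor hg (g τ)) :
    ∃ (t : Ω) (z : N), t ≠ 0 ∧ t ^ ℓ = algebraMap N Ω z ∧
      ∀ τ : Ω ≃ₐ[K] Ω, τ a = a → τ t = chi hg a (g τ) * t := by
  haveI : IsGalois N Ω := IsGalois.tower_top_of_isGalois K N Ω
  have hfix : ∀ τ : Ω ≃ₐ[N] Ω, (τ.restrictScalars K) a = a := by
    intro τ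
    rw [← hθ]
    exact τ.commutes θ
  let h : (Ω ≃ₐ[N] Ω) → Jac ℓ f Ω := fun τ => g (AlgEquiv.restrictScalarsHom K τ)
  have hval : ∀ x : Jac ℓ f Ω, ∃ c : N, Tor hg x → chi hg a x = algebraMap N Ω c ∧ c ≠ 0 := by
    intro x
    by_cases hx : Tor hg x
    · obtain ⟨i, hi⟩ := chi_mem H hg hx ha
      refine ⟨algebraMap K N (ζ ^ i), fun _ => ⟨?_, ?_⟩⟩
      · rw [hi, ← IsScalarTower.algebraMap_apply K N Ω]
      · rw [_root_.map_ne_zero]
        exact pow_ne_zero _ (hg.root.ne_zero hg.prime.ne_zero)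
    · exact ⟨0, fun h => absurd h hx⟩
  choose cv hcv using hval
  have hmul' : ∀ σ τ : Ω ≃ₐ[N] Ω, chi hg a (h (σ * τ)) = chi hg a (h σ) * chi hg a (h τ) := by
    intro σ τ
    show chi hg a (g (AlgEquiv.restrictScalarsHom K (σ * τ))) = _
    rw [map_mul, hmul, chi_add H hg (hg2 _) ((hg2 _).map _) ha]
    congr 1
    have h1 := chi_map H hg (hg2 (AlgEquiv.restrictScalarsHom K τ)) ha (ak (σ.restrictScalars K))
    have h3 : (ak (σ.restrictScalars K)) a = a := hfix σ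
    rw [h3, chi_fix' H hg (hg2 _) ha] at h1
    exact h1
  obtain ⟨t, ht, hk⟩ := exists_root_l (K := N) (Ω := Ω) (fun τ => cv (h τ))
    (fun σ => (hcv _ (hg2 _)).2) (fun σ τ => by
      apply (algebraMap N Ω).injective
      rw [map_mul]
      rw [← (hcv (h (σ * τ)) (hg2 _)).1, ← (hcv (h σ) (hg2 _)).1, ← (hcv (h τ) (hg2 _)).1, hmul'])
    (by
      have h1 : IsLocallyConstant (g ∘ (AlgEquiv.restrictScalarsHom K : (Ω ≃ₐ[N] Ω) →* _)) :=
        hgl.comp_continuous (cont_rs (F := K) (M := N) (Ω := Ω))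
      exact h1.comp cv)
  have hk' : ∀ τ : Ω ≃ₐ[N] Ω, τ t = chi hg a (h τ) * t := by
    intro τ
    rw [hk, ← (hcv (h τ) (hg2 _)).1]
  have hz : t ^ ℓ ∈ Set.range (algebraMap N Ω) := by
    rw [InfiniteGalois.mem_range_algebraMap_iff_fixed]
    intro σ
    rw [map_pow, hk', mul_pow, chi_pow H hg (hg2 _) ha, one_mul]
  obtain ⟨z, hz⟩ := hz
  refine ⟨t, z, ht, hz.symm, fun τ hτ => ?_⟩
  obtain ⟨τ', hτ'⟩ := lift_fix htop τ (by rw [hθ]; exact hτ)
  have h1 := hk' τ'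
  have h3 : AlgEquiv.restrictScalarsHom K τ' = τ := AlgEquiv.ext fun x => hτ' x
  have h4 : h τ' = g τ := by
    show g (AlgEquiv.restrictScalarsHom K τ') = _
    rw [h3]
  rw [h4, hτ'] at h1
  exact h1

end kummer

section cob

variable {ℓ : ℕ} {K F Ω : Type} [Field K] [Field F] [Field Ω] [Algebra K F] [Algebra F Ω]
  [Algebra K Ω] [IsScalarTower K F Ω] [IsGalois F Ω] [IsSepClosed Ω] {f : K[X]}
  {ζ : K} (H : Hyps) (hg : Good ℓ ζ f) (hirr : Irreducible (f.map (algebraMap K F)))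

include H hg hirr

/-- A cocycle with trivial values at the stabilizer of a root is a coboundary. -/
theorem cob1 {a : Ω} (ha : Rt f a) {c : (Ω ≃ₐ[F] Ω) → Jac ℓ f Ω}
    (hmul : ∀ σ τ, c (σ * τ) = c σ + jm ℓ f (rs K σ) (c τ)) (hc2 : ∀ σ, Tor hg (c σ))
    (h1 : ∀ σ : Ω ≃ₐ[F] Ω, σ a = a → chi hg a (c σ) = 1) :
    ∃ R : Jac ℓ f Ω, Tor hg R ∧ ∀ σ, c σ = jm ℓ f (rs K σ) R - R := by
  have htr : ∀ β : Ω, ∃ ρ : Ω ≃ₐ[F] Ω, Rt f β → ρ a = β := by
    intro β
    by_cases hβ : Rt f β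
    · obtain ⟨ρ, hρ⟩ := trans_rt hg hirr ha hβ
      exact ⟨ρ, fun _ => hρ⟩
    · exact ⟨1, fun h => absurd h hβ⟩
  choose ρ hρ using htr
  -- the values
  let r : Ω → Ω := fun β => chi hg β (c (ρ β))
  have hr : ∀ (τ : Ω ≃ₐ[F] Ω), r (τ a) = chi hg (τ a) (c τ) := by
    intro τ
    have hτa : Rt f (τ a) := ha.map (rs K τ)
    have h3 : (τ⁻¹ * ρ (τ a)) a = a := by
      rw [AlgEquiv.mul_apply, hρ _ hτa, ← AlgEquiv.mul_apply, inv_mul_cancel]; rfl
    have h4 : τ * (τ⁻¹ * ρ (τ a)) = ρ (τ a) := by group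
    have h5 := hmul τ (τ⁻¹ * ρ (τ a))
    rw [h4] at h5
    show chi hg (τ a) (c (ρ (τ a))) = _
    rw [h5, chi_add H hg (hc2 _) ((hc2 _).map _) hτa]
    have h6 := chi_map H hg (hc2 (τ⁻¹ * ρ (τ a))) ha (rs K τ)
    rw [h1 _ h3, map_one] at h6
    have h7 : (rs K τ) a = τ a := rfl
    rw [h7] at h6
    rw [h6, mul_one]
  have hrt : ∀ (τ : Ω ≃ₐ[F] Ω) (β : Ω), Rt f β → r (τ β) = chi hg (τ β) (c τ) * r β := by
    intro τ β hβ
    have h3 : τ β = (τ * ρ β) a := by rw [AlgEquiv.mul_apply, hρ β hβ]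
    have hτβ : Rt f (τ β) := hβ.map (rs K τ)
    rw [h3, hr, ← h3, hmul, chi_add H hg (hc2 _) ((hc2 _).map _) hτβ]
    congr 1
    have h6 := chi_map H hg (hc2 (ρ β)) hβ (rs K τ)
    rw [chi_fix' H hg (hc2 _) hβ] at h6
    exact h6
  have hrpow : ∀ β, Rt f β → r β ^ ℓ = 1 := fun β hβ => chi_pow H hg (hc2 _) hβ
  have hr0 : ∀ β, Rt f β → r β ≠ 0 := fun β hβ => chi_ne H hg (hc2 _) hβ
  -- the constant
  set Pr : Ω := ((f.map (algebraMap K Ω)).roots.map r).prod with hPr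
  have hPrpow : Pr ^ ℓ = 1 := by
    rw [hPr, ← Multiset.prod_map_pow]
    apply Multiset.prod_eq_one
    intro x hx
    obtain ⟨β, hβ, rfl⟩ := Multiset.mem_map.1 hx
    exact hrpow β (rt_of ((mem_roots (hg.up Ω).monic.ne_zero).1 hβ))
  have hPr0 : Pr ≠ 0 := by
    intro h
    rw [h, zero_pow hg.prime.ne_zero] at hPrpow
    exact zero_ne_one hPrpow
  obtain ⟨m, hm⟩ : ∃ m : ℕ, f.natDegree * m % ℓ = 1 := by
    obtain ⟨m, -, hm⟩ := Nat.exists_mul_mod_eq_one_of_coprime hg.cop.symm hg.prime.one_lt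
    exact ⟨m, hm⟩
  have hcn : (Pr ^ m) ^ f.natDegree = Pr := by
    rw [← pow_mul, mul_comm m, ← Nat.div_add_mod (f.natDegree * m) ℓ, hm, pow_add, pow_mul,
      hPrpow, one_pow, one_mul, pow_one]
  obtain ⟨R, hR, hRchi⟩ := chi_surj H hg (z := fun β => Pr ^ m / r β) (fun β hβ => by
      rw [div_pow, hrpow β hβ, div_one, ← pow_mul, mul_comm, pow_mul, hPrpow, one_pow]) (by
      have h3 : ((f.map (algebraMap K Ω)).roots.map fun β => Pr ^ m / r β).prod =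
          ((f.map (algebraMap K Ω)).roots.map fun β => Pr ^ m).prod / Pr := by
        rw [hPr, Multiset.prod_map_div]
      rw [h3, Multiset.map_const', Multiset.prod_replicate,
        ← (splits_up hg (Ω := Ω)).natDegree_eq_card_roots, natDegree_map, hcn, div_self hPr0])
  refine ⟨R, hR, fun σ => ?_⟩
  refine chi_ext H hg (hc2 σ) ((hR.map _).sub hR) fun β hβ => ?_
  -- `β = σ β'`
  have hβ' : Rt f (σ⁻¹ β) := hβ.map (rs K σ⁻¹)
  have e : σ (σ⁻¹ β) = β := by rw [← AlgEquiv.mul_apply, mul_inv_cancel]; rfl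
  rw [chi_sub H hg (hR.map _) hR hβ, hRchi β hβ]
  have h3 := chi_map H hg hR hβ' (rs K σ)
  rw [chi_fix' H hg hR hβ', hRchi _ hβ'] at h3
  have h4 : (rs K σ) (σ⁻¹ β) = β := e
  rw [h4] at h3
  rw [h3]
  have h5 := hrt σ (σ⁻¹ β) hβ'
  rw [e] at h5
  have h6 := hr0 _ hβ'
  have h7 := hr0 β hβ
  have h8 : Pr ^ m ≠ 0 := pow_ne_zero _ hPr0
  rw [h5]
  field_simp

end cob

end Pool.Agent.Y160.SE
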