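import Pool.Agent.Y160.SE.JI

/-!
# The element `1 - σ`: divisibility, descent of fixed classes
-/

set_option autoImplicit false
set_option linter.all false

open Polynomial IsDedekindDomain
open scoped nonZeroDivisors

namespace Pool.Agent.Y160.SE

open Pool.Agent.TH115.GD (incl rs ak Sep Comp CompInf IsTower)

section poly

/-- The sum `1 + X + ... + X ^ (ℓ - 1)`. -/
noncomputable def nrm (ℓ : ℕ) : ℤ[X] := ∑ i ∈ Finset.range ℓ, X ^ i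

theorem nrm_cyc {ℓ : ℕ} (hℓ : ℓ.Prime) : nrm ℓ = cyclotomic ℓ ℤ := by
  haveI := Fact.mk hℓ
  rw [cyclotomic_prime]
  rfl

/-- `ℓ` is divisible by `(1 - σ) ^ (ℓ - 1)`. -/
theorem exists_U {ℓ : ℕ} (hℓ : ℓ.Prime) : ∃ U V : ℤ[X],
    (ℓ : ℤ[X]) = U * (1 - X) ^ (ℓ - 1) + V * nrm ℓ := by
  obtain ⟨m, hm⟩ : ∃ m, ℓ = m + 1 := ⟨ℓ - 1, (Nat.sub_add_cancel hℓ.one_le).symm⟩
  have hμ := Complex.isPrimitiveRoot_exp (m + 1) (by omega)
  set μ := Complex.exp (2 * Real.pi * Complex.I / ((m + 1 : ℕ) : ℂ)) with hμ'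
  have h1 := hμ.prod_one_sub_pow_eq_order
  set U : ℤ[X] := ∏ k ∈ Finset.range m, ∑ i ∈ Finset.range (k + 1), X ^ i with hU
  have h2 : U * (1 - X) ^ m = ∏ k ∈ Finset.range m, (1 - X ^ (k + 1)) := by
    rw [hU, ← Finset.card_range m, ← Finset.prod_const, Finset.card_range,
      ← Finset.prod_mul_distrib]
    refine Finset.prod_congr rfl fun k _ => ?_
    rw [mul_comm]
    exact mul_neg_geom_sum X (k + 1)
  have h3 : aeval μ (((m + 1 : ℕ) : ℤ[X]) - U * (1 - X) ^ m) = 0 := by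
    rw [h2, map_sub, map_natCast, map_prod]
    simp only [map_sub, map_one, map_pow, aeval_X]
    rw [h1]
    push_cast
    ring
  have h4 : cyclotomic (m + 1) ℤ ∣ ((m + 1 : ℕ) : ℤ[X]) - U * (1 - X) ^ m := by
    rw [cyclotomic_eq_minpoly hμ (Nat.succ_pos m)]
    exact minpoly.isIntegrallyClosed_dvd (hμ.isIntegral (Nat.succ_pos m)) h3
  obtain ⟨V, hV⟩ := h4
  refine ⟨U, V, ?_⟩
  rw [hm, Nat.add_sub_cancel]
  have h5 : nrm (m + 1) = cyclotomic (m + 1) ℤ := nrm_cyc (hm ▸ hℓ)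
  rw [h5]
  linear_combination hV

/-- `(1 - σ) ^ ℓ` is divisible by `ℓ`. -/
theorem exists_W {ℓ : ℕ} (hℓ : ℓ.Prime) : ∃ W V : ℤ[X],
    (1 - X) ^ ℓ = (ℓ : ℤ[X]) * W + V * (1 - X ^ ℓ) := by
  obtain ⟨r, hr⟩ := exists_add_pow_prime_eq hℓ (1 : ℤ[X]) (-X)
  rcases hℓ.eq_two_or_odd' with rfl | hodd
  · refine ⟨X ^ 2 - X, 1, ?_⟩
    push_cast
    ring
  · refine ⟨1 * (-X) * r, 1, ?_⟩
    rw [sub_eq_add_neg, hr, hodd.neg_pow]
    ring

/-- `(1 - σ) ^ (ℓ - 1)` is divisible by `ℓ`. -/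
theorem exists_W1 {ℓ : ℕ} (hℓ : ℓ.Prime) : ∃ W V : ℤ[X],
    (1 - X) ^ (ℓ - 1) = (ℓ : ℤ[X]) * W + V * nrm ℓ := by
  haveI := Fact.mk hℓ
  have h1 : nrm ℓ * (X - 1) = X ^ ℓ - 1 := geom_sum_mul X ℓ
  set φ := Polynomial.mapRingHom (Int.castRingHom (ZMod ℓ)) with hφ
  have h2 : φ (nrm ℓ) * (X - 1) = (X - 1) ^ (ℓ - 1) * (X - 1) := by
    have h3 := congrArg φ h1
    rw [map_mul, map_sub, map_sub, map_pow, map_one] at h3
    have hX : φ X = X := by rw [hφ, coe_mapRingHom, map_X]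
    rw [hX] at h3
    rw [h3, ← pow_succ, Nat.sub_add_cancel hℓ.one_le, sub_pow_char, one_pow]
  have h4 : φ (nrm ℓ) = (X - 1) ^ (ℓ - 1) :=
    mul_right_cancel₀ (by
      intro h
      have := congrArg (eval 0) h
      simp at this) h2
  have h5 : φ ((X - 1) ^ (ℓ - 1) - nrm ℓ) = 0 := by
    rw [map_sub, h4, map_pow, map_sub, map_one]
    have hX : φ X = X := by rw [hφ, coe_mapRingHom, map_X]
    rw [hX, sub_self]
  have h6 : C ((ℓ : ℤ)) ∣ (X - 1) ^ (ℓ - 1) - nrm ℓ := by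
    rw [C_dvd_iff_dvd_coeff]
    intro i
    have h7 := congrArg (fun q => q.coeff i) h5
    simp only [hφ, coe_mapRingHom, coeff_map, coeff_zero] at h7
    exact (ZMod.intCast_zmod_eq_zero_iff_dvd _ _).1 h7
  obtain ⟨W, hW⟩ := h6
  refine ⟨(-1) ^ (ℓ - 1) * W, (-1) ^ (ℓ - 1), ?_⟩
  have h8 : ((1 : ℤ[X]) - X) ^ (ℓ - 1) = (-1) ^ (ℓ - 1) * (X - 1) ^ (ℓ - 1) := by
    rw [← mul_pow]; congr 1; ring
  have h9 : (C (ℓ : ℤ) : ℤ[X]) = (ℓ : ℤ[X]) := by simp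
  rw [h8, show (X - 1 : ℤ[X]) ^ (ℓ - 1) = C (ℓ : ℤ) * W + nrm ℓ by linear_combination hW, h9]
  ring

end poly

section lam

variable {ℓ : ℕ} {K Ω Ω' : Type} [Field K] [Field Ω] [Field Ω'] [Algebra K Ω]
  [Algebra K Ω'] {f : K[X]} {ζ : K} (H : Hyps) (hg : Good ℓ ζ f)

theorem sg_pow_ℓ (x : Jac ℓ f Ω) : pe hg Ω (X ^ ℓ) x = x := by
  have key : ∀ n : ℕ, ∀ x : Jac ℓ f Ω, pe hg Ω (X ^ n) x =
      Additive.ofMul (CommRing.Pic.mapRingHom ((hg.up Ω).tw ^ n) x.toMul) := by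
    intro n
    induction n with
    | zero =>
      intro x
      rw [pow_zero, pe_one, pow_zero]
      have : (1 : CR ℓ (f.map (algebraMap K Ω)) →+* _) = RingHom.id _ := rfl
      rw [this, CommRing.Pic.mapRingHom_id]
      rfl
    | succ n ih =>
      intro x
      rw [pow_succ, pe_mul, ih, pe_X, pow_succ]
      show Additive.ofMul (CommRing.Pic.mapRingHom ((hg.up Ω).tw ^ n)
        (CommRing.Pic.mapRingHom (hg.up Ω).tw x.toMul)) = _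
      rw [CommRing.Pic.mapRingHom_mapRingHom]
      rfl
  rw [key]
  have h1 : (hg.up Ω).tw ^ ℓ = RingHom.id _ := tw_pow_ℓ _
  rw [h1, CommRing.Pic.mapRingHom_id]
  rfl

include H

/-- The sum of the twists of a class is trivial. -/
theorem pe_nrm (x : Jac ℓ f Ω) : pe hg Ω (nrm ℓ) x = 0 := by
  obtain ⟨I, hI, hx⟩ := exists_cl H hg x
  obtain ⟨⟨g, hgm, h1⟩, -⟩ := H.nmi ℓ Ω _ _ (hg.up Ω) I hI
  -- the class of the product
  have hpow : ∀ n : ℕ, IsCl Ω (I.map ((hg.up Ω).tw ^ n)) (pe hg Ω (X ^ n) x) := by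
    intro n
    induction n with
    | zero =>
      rw [pow_zero, pow_zero, pe_one]
      have : (1 : CR ℓ (f.map (algebraMap K Ω)) →+* _) = RingHom.id _ := rfl
      rw [this, Ideal.map_id]
      exact hx
    | succ n ih =>
      have h3 := cl_sg H hg ih
      rw [Ideal.map_map] at h3
      have e1 : (hg.up Ω).tw.comp ((hg.up Ω).tw ^ n) = (hg.up Ω).tw ^ (n + 1) := by
        rw [pow_succ']
        rfl
      rw [e1] at h3
      have e3 : (X : ℤ[X]) ^ (n + 1) = X * X ^ n := pow_succ' X n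
      rw [e3, pe_mul, pe_X]
      exact h3
  have hprod : ∀ n : ℕ, IsCl Ω (∏ i ∈ Finset.range n, I.map ((hg.up Ω).tw ^ i))
      (pe hg Ω (∑ i ∈ Finset.range n, X ^ i) x) := by
    intro n
    induction n with
    | zero =>
      rw [Finset.prod_range_zero, Finset.sum_range_zero, Ideal.one_eq_top]
      have : pe hg Ω 0 x = 0 := by unfold pe; rw [map_zero]; rfl
      rw [this]
      exact cl_top H hg
    | succ n ih =>
      rw [Finset.prod_range_succ, Finset.sum_range_succ, pe_add]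
      exact cl_mul H hg ih (hpow n)
  have h2 := hprod ℓ
  rw [h1] at h2
  haveI := H.ring ℓ Ω _ _ (hg.up Ω)
  have h3 : pe hg Ω (nrm ℓ) x = 0 := by
    refine (cl_zero_iff H hg h2).2 ⟨1, xp ℓ _ g, one_ne_zero, ?_, ?_⟩
    · intro h
      exact hgm.ne_zero (xp_inj hg.prime.ne_zero (by rw [h, xp_zero]))
    · rw [Ideal.span_singleton_one, Ideal.top_mul, Ideal.mul_top]
  exact h3

/-- `ℓ = U (1 - σ) ^ (ℓ - 1)` on `J(Ω)`. -/
theorem exists_U' (hg : Good ℓ ζ f) : ∃ U : ℤ[X], ∀ (Ω : Type) [Field Ω] [Algebra K Ω] (x : Jac ℓ f Ω),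
    ℓ • x = pe hg Ω (U * (1 - X) ^ (ℓ - 1)) x := by
  obtain ⟨U, V, h⟩ := exists_U hg.prime
  refine ⟨U, fun Ω _ _ x => ?_⟩
  rw [← pe_nat hg, h, pe_add, pe_mul hg V, pe_nrm H, map_zero, add_zero]

/-- `(1 - σ) ^ ℓ = ℓ W` on `J(Ω)`. -/
theorem exists_W' (hg : Good ℓ ζ f) : ∃ W : ℤ[X], ∀ (Ω : Type) [Field Ω] [Algebra K Ω] (x : Jac ℓ f Ω),
    pe hg Ω ((1 - X) ^ ℓ) x = ℓ • pe hg Ω W x := by
  obtain ⟨W, V, h⟩ := exists_W hg.prime
  refine ⟨W, fun Ω _ _ x => ?_⟩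
  rw [h, pe_add, pe_mul hg V, pe_mul, pe_nat, pe_sub, sg_pow_ℓ, pe_one, sub_self, map_zero,
    add_zero]

/-- `(1 - σ) ^ (ℓ - 1) = ℓ W` on `J(Ω)`. -/
theorem exists_W1' (hg : Good ℓ ζ f) : ∃ W : ℤ[X], ∀ (Ω : Type) [Field Ω] [Algebra K Ω] (x : Jac ℓ f Ω),
    pe hg Ω ((1 - X) ^ (ℓ - 1)) x = ℓ • pe hg Ω W x := by
  obtain ⟨W, V, h⟩ := exists_W1 hg.prime
  refine ⟨W, fun Ω _ _ x => ?_⟩
  rw [h, pe_add, pe_mul hg V, pe_mul, pe_nat, pe_nrm H, map_zero, add_zero]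

/-- Divisibility by `1 - σ`. -/
theorem lam_surj [IsSepClosed Ω] (x : Jac ℓ f Ω) : ∃ y : Jac ℓ f Ω, pe hg Ω (1 - X) y = x := by
  obtain ⟨I, hI, hx⟩ := exists_cl H hg x
  obtain ⟨A, hA, h⟩ := H.div ℓ Ω _ _ (hg.up Ω) I hI
  obtain ⟨y, hy⟩ := cl_exists H hg hA
  refine ⟨y, ?_⟩
  have h1 := cl_mul H hg hx (cl_sg H hg hy)
  have h2 := (cl_eq_iff H hg h1 hy).2 h
  rw [pe_sub, pe_one, pe_X, sub_eq_iff_eq_add]
  exact h2.symm

theorem lam_pow_surj [IsSepClosed Ω] (n : ℕ) (x : Jac ℓ f Ω) :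
    ∃ y : Jac ℓ f Ω, pe hg Ω ((1 - X) ^ n) y = x := by
  induction n generalizing x with
  | zero => exact ⟨x, by rw [pow_zero, pe_one]⟩
  | succ n ih =>
    obtain ⟨z, hz⟩ := ih x
    obtain ⟨y, hy⟩ := lam_surj H hg z
    exact ⟨y, by rw [pow_succ, pe_mul, hy, hz]⟩

end lam

section desc

variable {ℓ : ℕ} {K E Ω : Type} [Field K] [Field E] [Field Ω] [Algebra K E] [Algebra E Ω]
  [Algebra K Ω] [IsScalarTower K E Ω] [IsGalois E Ω]
  {f : K[X]} {ζ : K} (H : Hyps) (hg : Good ℓ ζ f)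

include H hg

/-- A class which is fixed by the Galois group comes from the base. -/
theorem fixed_class (x : Jac ℓ f Ω) (hx : ∀ τ : Ω ≃ₐ[E] Ω, jm ℓ f (rs K τ) x = x) :
    ∃ y : Jac ℓ f E, jm ℓ f (incl K E Ω) y = x := by
  obtain ⟨I, hI, hIx⟩ := exists_cl H hg x
  have hf : (f.map (algebraMap K E)).map (algebraMap E Ω) = f.map (algebraMap K Ω) := by
    rw [Polynomial.map_map, ← IsScalarTower.algebraMap_eq]
  obtain ⟨J, hJ, hJI⟩ := H.desc ℓ E Ω _ _ _ hf (hg.up E)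
    (fun τ => map_alg (rs K τ)) I hI (fun τ => by
      have h1 := cl_map H hg hIx (rs K τ)
      exact (cl_eq_iff H hg h1 hIx).1 (hx τ))
  obtain ⟨y, hy⟩ := cl_exists (Ω := E) H hg hJ
  refine ⟨y, ?_⟩
  exact (cl_eq_iff H hg (cl_map H hg hy (incl K E Ω)) hIx).2 hJI

end desc

end Pool.Agent.Y160.SE
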