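import Pool.Agent.Y160.SE.Kum
import Pool.Agent.TH115.TC.LocC

/-!
# The local condition for the Kummer generator
-/

set_option autoImplicit false
set_option linter.all false

open Polynomial IsDedekindDomain
open scoped nonZeroDivisors Classical

namespace Pool.Agent.Y160.SE

open Pool.Agent.TH115.GD (incl rs ak Sep Comp CompInf IsTower rs_mul Preserves exists_conj lift_fix
  cont_rs exists_restrict exists_aut exists_kappa)
open Pool.Agent.W309.TD (locConst_apply compare)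

section lp

variable {L Ω : Type} [Field L] [Field Ω] [Algebra L Ω] {ℓ : ℕ} {f : L[X]}

/-- The norm of a prime factor. -/
theorem lp_norm1 (hf : f.Monic) (hs : (f.map (algebraMap L Ω)).Splits) {p c : L[X]} (hp : p.Monic)
    (hc : p ∣ f - c ^ ℓ) : ∃ y : L,
      ((f.map (algebraMap L Ω)).roots.map fun β => aeval β p).prod = algebraMap L Ω (y ^ ℓ) ∨
      ((f.map (algebraMap L Ω)).roots.map fun β => aeval β p).prod = -algebraMap L Ω (y ^ ℓ) := by
  -- in terms of the resultant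
  have h1 : ((f.map (algebraMap L Ω)).roots.map fun β => aeval β p).prod =
      algebraMap L Ω (resultant f p) := by
    have h3 := resultant_eq_prod_eval (f.map (algebraMap L Ω)) (p.map (algebraMap L Ω)) p.natDegree
      natDegree_map_le hs
    rw [(hf.map _).leadingCoeff, one_pow, one_mul, natDegree_map] at h3
    rw [← resultant_map_map, h3]
    congr 1
    apply Multiset.map_congr rfl
    intro β _
    rw [eval_map_algebraMap]
  let A := AlgebraicClosure L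
  have h4 : resultant p f = resultant p c ^ ℓ := by
    apply (algebraMap L A).injective
    rw [map_pow, ← resultant_map_map, ← resultant_map_map]
    have hsp : (p.map (algebraMap L A)).Splits := IsAlgClosed.splits _
    have h5 := resultant_eq_prod_eval (p.map (algebraMap L A)) (f.map (algebraMap L A)) f.natDegree
      natDegree_map_le hsp
    have h6 := resultant_eq_prod_eval (p.map (algebraMap L A)) (c.map (algebraMap L A)) c.natDegree
      natDegree_map_le hsp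
    rw [(hp.map _).leadingCoeff, one_pow, one_mul, natDegree_map] at h5 h6
    rw [h5, h6, ← Multiset.prod_map_pow]
    congr 1
    apply Multiset.map_congr rfl
    intro ξ hξ
    have h7 : (p.map (algebraMap L A)).eval ξ = 0 := (mem_roots (hp.map _).ne_zero).1 hξ
    obtain ⟨q, hq⟩ := hc
    have h8 := congrArg (fun r => (r.map (algebraMap L A)).eval ξ) hq
    simp only [Polynomial.map_sub, Polynomial.map_pow, Polynomial.map_mul, eval_sub, eval_pow,
      eval_mul] at h8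
    rw [h7, zero_mul, sub_eq_zero] at h8
    exact h8
  have h9 : resultant f p = (-1) ^ (f.natDegree * p.natDegree) * resultant p c ^ ℓ := by
    rw [resultant_comm, h4]
  rw [h1, h9]
  rcases neg_one_pow_eq_or L (f.natDegree * p.natDegree) with h | h
  · exact ⟨resultant p c, Or.inl (by rw [h, one_mul])⟩
  · exact ⟨resultant p c, Or.inr (by rw [h, neg_one_mul, map_neg])⟩

theorem lp_norm (hf : f.Monic) (hs : (f.map (algebraMap L Ω)).Splits) {g : L[X]} (hg : LP ℓ f g) :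
    ∃ y : L,
      ((f.map (algebraMap L Ω)).roots.map fun β => aeval β g).prod = algebraMap L Ω (y ^ ℓ) ∨
      ((f.map (algebraMap L Ω)).roots.map fun β => aeval β g).prod = -algebraMap L Ω (y ^ ℓ) := by
  obtain ⟨r, s, hr, hps, rfl⟩ := hg
  have hr1 : ∃ y : L, ((f.map (algebraMap L Ω)).roots.map fun β => aeval β r).prod =
      algebraMap L Ω y := by
    have h3 := resultant_eq_prod_eval (f.map (algebraMap L Ω)) (r.map (algebraMap L Ω)) r.natDegree
      natDegree_map_le hs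
    rw [(hf.map _).leadingCoeff, one_pow, one_mul, natDegree_map] at h3
    refine ⟨resultant f r, ?_⟩
    rw [← resultant_map_map, h3]
    congr 1
    apply Multiset.map_congr rfl
    intro β _
    rw [eval_map_algebraMap]
  obtain ⟨y0, hy0⟩ := hr1
  have key : ∀ s : Multiset L[X], (∀ p ∈ s, p.Monic ∧ Irreducible p ∧ ¬ p ∣ f ∧
      ∃ c : L[X], p ∣ f - c ^ ℓ) → ∃ y : L,
      ((f.map (algebraMap L Ω)).roots.map fun β => aeval β (r ^ ℓ * s.prod)).prod =
        algebraMap L Ω (y ^ ℓ) ∨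
      ((f.map (algebraMap L Ω)).roots.map fun β => aeval β (r ^ ℓ * s.prod)).prod =
        -algebraMap L Ω (y ^ ℓ) := by
    intro s
    induction s using Multiset.induction_on with
    | empty =>
      intro _
      refine ⟨y0, Or.inl ?_⟩
      rw [Multiset.prod_zero, mul_one]
      simp only [map_pow]
      rw [Multiset.prod_map_pow, hy0]
    | cons p s ih =>
      intro h
      obtain ⟨y, hy⟩ := ih fun q hq => h q (Multiset.mem_cons_of_mem hq)
      obtain ⟨h1, -, -, c, hc⟩ := h p (Multiset.mem_cons_self p s)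
      obtain ⟨w, hw⟩ := lp_norm1 hf hs h1 hc
      have e : ((f.map (algebraMap L Ω)).roots.map fun β => aeval β (r ^ ℓ * (p ::ₘ s).prod)).prod =
          ((f.map (algebraMap L Ω)).roots.map fun β => aeval β p).prod *
          ((f.map (algebraMap L Ω)).roots.map fun β => aeval β (r ^ ℓ * s.prod)).prod := by
        rw [← Multiset.prod_map_mul]
        congr 1
        apply Multiset.map_congr rfl
        intro β _
        rw [Multiset.prod_cons, ← map_mul]
        congr 1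
        ring
      refine ⟨w * y, ?_⟩
      rw [e, mul_pow, map_mul]
      rcases hw with hw | hw <;> rcases hy with hy | hy <;> rw [hw, hy]
      · exact Or.inl rfl
      · exact Or.inr (by ring)
      · exact Or.inr (by ring)
      · exact Or.inl (by ring)
  exact key s hps

end lp

section transfer

variable {ℓ : ℕ} {K F Ω L Ω' E Ω'' : Type} [Field K] [Field F] [Field Ω] [Field L] [Field Ω']
  [Field E] [Field Ω''] [Algebra K F] [Algebra F Ω] [Algebra K Ω] [IsScalarTower K F Ω]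
  [IsGalois F Ω]
  [Algebra K L] [Algebra F L] [IsScalarTower K F L]
  [Algebra L Ω'] [Algebra K Ω'] [Algebra F Ω'] [IsScalarTower K L Ω'] [IsScalarTower F L Ω']
  [IsScalarTower K F Ω'] [IsGalois L Ω']
  [Algebra K E] [Algebra E Ω''] [Algebra K Ω''] [Algebra F Ω''] [Algebra F E]
  [IsScalarTower K E Ω''] [IsScalarTower K F Ω''] [IsScalarTower F E Ω'']
  {f : K[X]} {ζ : K} (H : Hyps) (hg : Good ℓ ζ f)

include H hg

theorem transfer {c : (Ω ≃ₐ[F] Ω) → Jac ℓ f Ω} (hc : IsCoc ℓ f c) (hc2 : ∀ σ, Tor hg (c σ))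
    (hloc : LocTriv ℓ f L Ω' c) (κ : Ω' →ₐ[F] Ω'')
    (hκ : ∀ τ : Ω'' ≃ₐ[E] Ω'', ∃ τ' : Ω' ≃ₐ[L] Ω', ∀ x, τ (κ x) = κ (τ' x))
    (e : Ω →ₐ[F] Ω'') :
    ∃ (P : Jac ℓ f Ω'') (Q : Jac ℓ f L),
      pe hg Ω'' (1 - X) P = jm ℓ f ((κ.restrictScalars K).comp (incl K L Ω')) Q ∧
      ∀ (τ : Ω'' ≃ₐ[E] Ω'') (σ : Ω ≃ₐ[F] Ω), (∀ x, τ (e x) = e (σ x)) →
        jm ℓ f (e.restrictScalars K) (c σ) = jm ℓ f (rs K τ) P - P := by
  obtain ⟨ι, P0, hP⟩ := hloc
  choose res hres using exists_restrict (F := F) (Ω := Ω) (L := L) (Ω' := Ω') ι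
  set ι' : Ω →ₐ[K] Ω' := ι.restrictScalars K with hι'
  set κ' : Ω' →ₐ[K] Ω'' := κ.restrictScalars K with hκ'
  obtain ⟨ρ, hρ⟩ := exists_aut (κ.comp ι) e
  have hT : ∀ τ : Ω' ≃ₐ[L] Ω', jm ℓ f ι' (c (res τ)) = jm ℓ f (rs K τ) P0 - P0 :=
    fun τ => hP τ (res τ) (hres τ)
  have hPP : ∀ τ : Ω' ≃ₐ[L] Ω', jm ℓ f (rs K τ) (pe hg Ω' (1 - X) P0) = pe hg Ω' (1 - X) P0 := by
    intro τ
    have h1 : jm ℓ f (rs K τ) P0 = P0 + jm ℓ f ι' (c (res τ)) := by rw [hT]; abel
    have h3 : pe hg Ω' (1 - X) (jm ℓ f ι' (c (res τ))) = 0 := (hc2 (res τ)).map ι'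
    rw [jm_pe, h1, map_add, h3, add_zero]
  obtain ⟨Q, hQ⟩ := fixed_class (E := L) H hg (pe hg Ω' (1 - X) P0) hPP
  refine ⟨jm ℓ f κ' P0 + jm ℓ f (κ'.comp ι') (c ρ), Q, ?_, fun τ σ h => ?_⟩
  · have h3 : pe hg Ω'' (1 - X) (jm ℓ f (κ'.comp ι') (c ρ)) = 0 := (hc2 ρ).map _
    rw [map_add, h3, add_zero, ← jm_pe, ← hQ, jm_jm]
  · obtain ⟨τ', hτ'⟩ := hκ τ
    -- `res τ' = ρ σ ρ⁻¹`
    have hconj : ∀ x, τ' (ι x) = ι ((ρ * σ * ρ⁻¹) x) := by
      intro x
      apply κ.injective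
      show κ (τ' (ι x)) = κ (ι ((ρ * σ * ρ⁻¹) x))
      rw [← hτ']
      have e1 : κ (ι x) = e (ρ⁻¹ x) := by
        rw [hρ, ← AlgEquiv.mul_apply, mul_inv_cancel]; rfl
      rw [e1, h, hρ]
      rfl
    have h1 := hP τ' _ hconj
    have h2 : c (ρ * σ * ρ⁻¹ * ρ) = c (ρ * σ * ρ⁻¹) + jm ℓ f (rs K (ρ * σ * ρ⁻¹)) (c ρ) :=
      hc.mul _ _
    have h3 : ρ * σ * ρ⁻¹ * ρ = ρ * σ := by group
    rw [h3, hc.mul] at h2
    have h4 : jm ℓ f (rs K ρ) (c σ) =
        c (ρ * σ * ρ⁻¹) + jm ℓ f (rs K (ρ * σ * ρ⁻¹)) (c ρ) - c ρ := by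
      rw [← h2]; abel
    have ec : jm ℓ f (e.restrictScalars K) (c σ) = jm ℓ f (κ'.comp ι') (jm ℓ f (rs K ρ) (c σ)) := by
      have e6 : (κ'.comp ι').comp (rs K ρ) = e.restrictScalars K := AlgHom.ext fun x => (hρ x).symm
      rw [jm_jm, e6]
    have e5 : jm ℓ f (κ'.comp ι') (c (ρ * σ * ρ⁻¹)) =
        jm ℓ f (rs K τ) (jm ℓ f κ' P0) - jm ℓ f κ' P0 := by
      have e6 : (κ').comp (rs K τ') = (rs K τ).comp κ' := AlgHom.ext fun x => (hτ' x).symm
      rw [← jm_jm, h1, map_sub, jm_jm, jm_jm, e6]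
    have e7 : jm ℓ f (κ'.comp ι') (jm ℓ f (rs K (ρ * σ * ρ⁻¹)) (c ρ)) =
        jm ℓ f (rs K τ) (jm ℓ f (κ'.comp ι') (c ρ)) := by
      have e8 : (κ'.comp ι').comp (rs K (ρ * σ * ρ⁻¹)) = (rs K τ).comp (κ'.comp ι') := by
        refine AlgHom.ext fun x => ?_
        show κ (ι ((ρ * σ * ρ⁻¹) x)) = τ (κ (ι x))
        rw [hτ', hconj]
      rw [jm_jm, jm_jm, e8]
    rw [ec, h4, map_sub, map_add, e5, e7, map_add]
    abel

end transfer

section kc

variable {ℓ : ℕ} {K L Ω : Type} [Field K] [Field L] [Field Ω] [Algebra K L] [Algebra L Ω]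
  [Algebra K Ω] [IsScalarTower K L Ω] [IsSepClosed Ω] {f : K[X]} {ζ : K} (H : Hyps)
  (hg : Good ℓ ζ f)

omit [IsSepClosed Ω] in
theorem map_L : (f.map (algebraMap K L)).map (algebraMap L Ω) = f.map (algebraMap K Ω) := by
  rw [Polynomial.map_map, ← IsScalarTower.algebraMap_eq]

include H

/-- The Kummer class of an ideal `I` over `L` prime to the ramified points. -/
theorem kcJ {I : Ideal (CR ℓ (f.map (algebraMap K L)))} {Q : Jac ℓ f L} (hQ : IsCl L I Q)
    (hI : I ⊔ Ideal.span {yy ℓ (f.map (algebraMap K L))} = ⊤) {G : L[X]}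
    (hG : IsCoprime G (f.map (algebraMap K L)))
    (hN : ∏ i ∈ Finset.range ℓ, I.map ((hg.up L).tw ^ i) = Ideal.span {xp ℓ _ G})
    {P : Jac ℓ f Ω} (hP : pe hg Ω (1 - X) P = jm ℓ f (incl K L Ω) Q) :
    ∃ t : Ω → Ω, (∀ β, Rt f β → t β ≠ 0 ∧ aeval β G ≠ 0 ∧
        t β ^ ℓ * ((f.map (algebraMap K Ω)).roots.map fun β' => aeval β' G).prod =
          aeval β G ^ f.natDegree) ∧
      ∀ (τ : Ω ≃ₐ[L] Ω) (β : Ω), Rt f β → Tor hg (jm ℓ f (rs K τ) P - P) →
        τ (t β) = chi hg (τ β) (jm ℓ f (rs K τ) P - P) * t (τ β) := by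
  obtain ⟨A, hA, hAP⟩ := exists_cl H hg P
  have hE : Eqv (I.map (crMap ℓ (algebraMap L Ω) _ _ (map_L (K := K))) *
      A.map ((hg.up L).map (algebraMap L Ω) (map_L (K := K))).tw) A := by
    have h1 := cl_map H hg hQ (incl K L Ω)
    have h3 := cl_mul H hg h1 (cl_sg H hg hAP)
    have h5 : jm ℓ f (incl K L Ω) Q + sg hg Ω P = P := by
      rw [← hP, pe_sub, pe_one, pe_X]; abel
    have h4 := (cl_eq_iff H hg h3 hAP).1 h5
    have key : ∀ (ζ' : Ω) (hg' : Good ℓ ζ' (f.map (algebraMap K Ω))) (ζ'' : Ω)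
        (hg'' : Good ℓ ζ'' (f.map (algebraMap K Ω))), ζ' = ζ'' →
        Eqv (I.map (crMap ℓ (algebraMap L Ω) _ _ (map_L (K := K))) * A.map hg'.tw) A →
        Eqv (I.map (crMap ℓ (algebraMap L Ω) _ _ (map_L (K := K))) * A.map hg''.tw) A := by
      rintro ζ' hg' _ hg'' rfl h
      exact h
    exact key _ (hg.up Ω) _ _ (IsScalarTower.algebraMap_apply K L Ω ζ) h4
  obtain ⟨t, ht1, ht2⟩ := H.kc ℓ L Ω _ _ _ (map_L (K := K)) (hg.up L)
    (fun τ => map_alg (rs K τ)) (splits_up hg) I A G hI hA hG hN hE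
  refine ⟨t, fun β hβ => ?_, fun τ β hβ hT => ?_⟩
  · obtain ⟨h1, h3, h4⟩ := ht1 β hβ.ev
    rw [natDegree_map] at h4
    exact ⟨h1, h3, h4⟩
  · have hτβ : Rt f (τ β) := hβ.map (rs K τ)
    obtain ⟨D, hD, hDc⟩ := chi_spec H hg hT hτβ
    have h1 := cl_map H hg hAP (rs K τ)
    have h3 := cl_mul H hg hD hAP
    have h4 : jm ℓ f (rs K τ) P = (jm ℓ f (rs K τ) P - P) + P := by abel
    have h5 := (cl_eq_iff H hg h1 h3).1 h4
    refine ht2 τ β _ D hβ.ev hD.ne h5 ?_
    have key : ∀ (ζ' : Ω) (hg' : Good ℓ ζ' (f.map (algebraMap K Ω))) (ζ'' : Ω)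
        (hg'' : Good ℓ ζ'' (f.map (algebraMap K Ω))), ζ' = ζ'' →
        Chi hg' (τ β) (chi hg (τ β) (jm ℓ f (rs K τ) P - P)) D →
        Chi hg'' (τ β) (chi hg (τ β) (jm ℓ f (rs K τ) P - P)) D := by
      rintro ζ' hg' _ hg'' rfl h
      exact h
    exact key _ (hg.up Ω) _ _ (IsScalarTower.algebraMap_apply K L Ω ζ) hDc

end kc

end Pool.Agent.Y160.SE
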