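import Pool.Agent.Y160.SE.Lam
import Pool.Agent.TH115.GD.Des

/-!
# The abstract descent: if the first layer of every Tate class comes from `J(K)`, so does every class
-/

set_option autoImplicit false
set_option linter.all false

open Polynomial IsDedekindDomain
open scoped nonZeroDivisors Classical

namespace Pool.Agent.Y160.SE

open Pool.Agent.TH115.GD (incl rs ak Sep Comp CompInf IsTower rs_mul)
open Pool.Agent.W309.TD (locConst_apply)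

section cont

variable {ℓ : ℕ} {K F Ω : Type} [Field K] [Field F] [Field Ω] [Algebra K F] [Algebra F Ω]
  [Algebra K Ω] [IsScalarTower K F Ω] [IsGalois F Ω] {f : K[X]} {ζ : K} (H : Hyps)
  (hg : Good ℓ ζ f)

omit [IsGalois F Ω] in
/-- Automorphisms which agree on the coefficients agree on an element. -/
theorem cm_congr (σ τ : Ω ≃ₐ[F] Ω) {p : (Polynomial Ω)[X]}
    (h : ∀ i j, σ ((p.coeff i).coeff j) = τ ((p.coeff i).coeff j)) :
    cm ℓ f (rs K σ) (AdjoinRoot.mk _ p) = cm ℓ f (rs K τ) (AdjoinRoot.mk _ p) := by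
  have key : ∀ ρ : Ω ≃ₐ[F] Ω, cm ℓ f (rs K ρ) (AdjoinRoot.mk _ p) =
      AdjoinRoot.mk _ (p.map (mapRingHom ((rs K ρ : Ω →ₐ[K] Ω) : Ω →+* Ω))) := by
    intro ρ
    have h1 : (cm ℓ f (rs K ρ)).comp (AdjoinRoot.mk _) = (AdjoinRoot.mk _).comp
        (mapRingHom (mapRingHom ((rs K ρ : Ω →ₐ[K] Ω) : Ω →+* Ω))) := by
      apply Polynomial.ringHom_ext'
      · apply RingHom.ext
        intro q
        show cm ℓ f (rs K ρ) (xp ℓ _ q) = AdjoinRoot.mk _ (mapRingHom _ (C q))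
        rw [crMap_xp, coe_mapRingHom, map_C]
        rfl
      · show cm ℓ f (rs K ρ) (yy ℓ _) = AdjoinRoot.mk _ (mapRingHom _ X)
        rw [crMap_yy, coe_mapRingHom, map_X]
        rfl
    exact congrArg (fun g : (Polynomial Ω)[X] →+* CR ℓ (f.map (algebraMap K Ω)) => g p) h1
  rw [key, key]
  congr 1
  ext i j
  rw [coeff_map, coeff_map, coe_mapRingHom, coe_mapRingHom, coeff_map, coeff_map]
  exact h i j

include H hg

theorem jm_locConst (x : Jac ℓ f Ω) : IsLocallyConstant (fun σ : Ω ≃ₐ[F] Ω => jm ℓ f (rs K σ) x) := by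
  obtain ⟨I, hI, hx⟩ := exists_cl H hg x
  haveI := H.ring ℓ Ω _ _ (hg.up Ω)
  obtain ⟨s, hs⟩ := (isNoetherianRing_iff_ideal_fg _).1 (inferInstance :
    IsNoetherianRing (CR ℓ (f.map (algebraMap K Ω)))) I
  have hrep : ∀ a : CR ℓ (f.map (algebraMap K Ω)), ∃ p : (Polynomial Ω)[X],
    a = AdjoinRoot.mk _ p := fun a => cr_mem a
  choose rep hrep using hrep
  -- the coefficients
  let S : Finset Ω := s.biUnion fun a => (rep a).support.biUnion fun i =>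
    ((rep a).coeff i).support.image fun j => ((rep a).coeff i).coeff j
  have hcoef : ∀ σ τ : Ω ≃ₐ[F] Ω, (∀ c ∈ S, σ c = τ c) → ∀ a ∈ s, ∀ i j,
      σ (((rep a).coeff i).coeff j) = τ (((rep a).coeff i).coeff j) := by
    intro σ τ h a ha i j
    by_cases h1 : ((rep a).coeff i).coeff j = 0
    · rw [h1, map_zero, map_zero]
    · apply h
      rw [Finset.mem_biUnion]
      refine ⟨a, ha, ?_⟩
      rw [Finset.mem_biUnion]
      refine ⟨i, ?_, ?_⟩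
      · rw [mem_support_iff]
        intro h2
        rw [h2, coeff_zero] at h1
        exact h1 rfl
      · rw [Finset.mem_image]
        exact ⟨j, mem_support_iff.2 h1, rfl⟩
  have hag : ∀ σ τ : Ω ≃ₐ[F] Ω, (∀ c ∈ S, σ c = τ c) →
      jm ℓ f (rs K σ) x = jm ℓ f (rs K τ) x := by
    intro σ τ h
    have e1 : I.map (cm ℓ f (rs K σ)) = I.map (cm ℓ f (rs K τ)) := by
      rw [← hs, Ideal.map_span, Ideal.map_span]
      congr 1
      apply Set.image_congr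
      intro a ha
      rw [hrep a]
      exact cm_congr σ τ (hcoef σ τ h a ha)
    refine (cl_eq_iff H hg (cl_map H hg hx (rs K σ)) (cl_map H hg hx (rs K τ))).2 ?_
    rw [e1]
    exact ⟨1, 1, one_ne_zero, one_ne_zero, rfl⟩
  rw [IsLocallyConstant.iff_exists_open]
  intro σ
  have hloc : ∀ c : Ω, ∃ U : Set (Ω ≃ₐ[F] Ω), IsOpen U ∧ σ ∈ U ∧ ∀ τ ∈ U, τ c = σ c := fun c =>
    (IsLocallyConstant.iff_exists_open _).1 (locConst_apply (K := F) c) σ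
  choose U hU hσU hUc using hloc
  refine ⟨⋂ c ∈ S, U c, isOpen_biInter_finset fun c _ => hU c, Set.mem_iInter₂.2 fun c _ => hσU c,
    fun τ hτ => hag τ σ fun c hc => hUc c τ ((Set.mem_iInter₂.1 hτ) c hc)⟩

theorem cob_isCoc (Q : Jac ℓ f Ω) :
    IsCoc ℓ f (fun σ : Ω ≃ₐ[F] Ω => jm ℓ f (rs K σ) Q - Q) := by
  refine ⟨?_, fun σ τ => ?_⟩
  · exact (jm_locConst H hg Q).comp (fun P => P - Q)
  · show jm ℓ f (rs K (σ * τ)) Q - Q = jm ℓ f (rs K σ) Q - Q + jm ℓ f (rs K σ) (jm ℓ f (rs K τ) Q - Q)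
    rw [map_sub, jm_jm, rs_mul]
    abel

omit H hg [IsGalois F Ω] in
theorem IsCoc.sub {c c' : (Ω ≃ₐ[F] Ω) → Jac ℓ f Ω} (h : IsCoc ℓ f c) (h' : IsCoc ℓ f c') :
    IsCoc ℓ f (fun σ => c σ - c' σ) := by
  refine ⟨?_, fun σ τ => ?_⟩
  · exact h.lc.comp₂ h'.lc (fun a b => a - b)
  · show c (σ * τ) - c' (σ * τ) = c σ - c' σ + jm ℓ f (rs K σ) (c τ - c' τ)
    rw [h.mul, h'.mul, map_sub]
    abel

omit H [IsGalois F Ω] in
theorem IsCoc.pe {c : (Ω ≃ₐ[F] Ω) → Jac ℓ f Ω} (h : IsCoc ℓ f c) (p : ℤ[X]) :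
    IsCoc ℓ f (fun σ => pe hg Ω p (c σ)) := by
  refine ⟨?_, fun σ τ => ?_⟩
  · exact h.lc.comp (fun a => Pool.Agent.Y160.SE.pe hg Ω p a)
  · show Pool.Agent.Y160.SE.pe hg Ω p (c (σ * τ)) = Pool.Agent.Y160.SE.pe hg Ω p (c σ) +
      jm ℓ f (rs K σ) (Pool.Agent.Y160.SE.pe hg Ω p (c τ))
    rw [h.mul, map_add, jm_pe]

end cont

section loc

variable {ℓ : ℕ} {K F Ω L Ω' : Type} [Field K] [Field F] [Field Ω] [Field L] [Field Ω']
  [Algebra K F] [Algebra F Ω] [Algebra K Ω] [IsScalarTower K F Ω]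
  [Algebra K L] [Algebra L Ω'] [Algebra K Ω'] [Algebra F Ω'] [IsScalarTower K L Ω']
  [IsScalarTower K F Ω'] {f : K[X]} {ζ : K} (hg : Good ℓ ζ f)

theorem LocTriv.sub {c : (Ω ≃ₐ[F] Ω) → Jac ℓ f Ω} (h : LocTriv ℓ f L Ω' c) (Q : Jac ℓ f Ω) :
    LocTriv ℓ f L Ω' (fun σ => c σ - (jm ℓ f (rs K σ) Q - Q)) := by
  obtain ⟨ι, S, hS⟩ := h
  refine ⟨ι, S - jm ℓ f (ι.restrictScalars K) Q, fun τ σ hτσ => ?_⟩
  have h3 := hS τ σ hτσ
  have h5 : (ι.restrictScalars K).comp (rs K σ) = (rs K τ).comp (ι.restrictScalars K) :=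
    AlgHom.ext fun x => (hτσ x).symm
  have h4 : jm ℓ f (ι.restrictScalars K) (jm ℓ f (rs K σ) Q) =
      jm ℓ f (rs K τ) (jm ℓ f (ι.restrictScalars K) Q) := by
    rw [jm_jm, jm_jm, h5]
  rw [map_sub, map_sub, h3, map_sub, h4]
  abel

include hg in
theorem LocTriv.pe {c : (Ω ≃ₐ[F] Ω) → Jac ℓ f Ω} (h : LocTriv ℓ f L Ω' c) (p : ℤ[X]) :
    LocTriv ℓ f L Ω' (fun σ => pe hg Ω p (c σ)) := by
  obtain ⟨ι, S, hS⟩ := h
  refine ⟨ι, Pool.Agent.Y160.SE.pe hg Ω' p S, fun τ σ hτσ => ?_⟩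
  rw [jm_pe, hS τ σ hτσ, map_sub, jm_pe]

end loc

section step

variable {ℓ : ℕ} {k' K F : Type} [Field k'] [Field K] [Field F] [Algebra K F] [Algebra k'[X] F]
  [IsFractionRing k'[X] F] {f : K[X]} {ζ : K} (H : Hyps) (hg : Good ℓ ζ f)

/-- Tate classes. -/
structure IsTateClass (ℓ : ℕ) (k' : Type) [Field k'] [Algebra k'[X] F] [IsFractionRing k'[X] F]
    (f : K[X]) (c : ℕ → (Sep F ≃ₐ[F] Sep F) → Jac ℓ f (Sep F)) : Prop where
  tc : IsTC ℓ f c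
  loc : ∀ n, LocallyTrivial ℓ k' f (c n)
  inv : IsInv ℓ f c

include H hg

/-- Division of a Tate class by `1 - σ`. -/
theorem div_class {c : ℕ → (Sep F ≃ₐ[F] Sep F) → Jac ℓ f (Sep F)} (hT : IsTateClass ℓ k' f c)
    {P : Jac ℓ f K} {R : Jac ℓ f (Sep F)}
    (hR : pe hg (Sep F) (1 - X) R = jm ℓ f (incl K K (Sep F)) P)
    (key : ∀ σ, pe hg (Sep F) ((1 - X) ^ (ℓ - 2)) (c 1 σ) = jm ℓ f (rs K σ) R - R) :
    ∃ (P' : Jac ℓ f K) (G : ℕ → Jac ℓ f (Sep F)) (c' : ℕ → (Sep F ≃ₐ[F] Sep F) → Jac ℓ f (Sep F)),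
      G 0 = jm ℓ f (incl K K (Sep F)) P' ∧ (∀ n, ℓ • G (n + 1) = G n) ∧ IsTateClass ℓ k' f c' ∧
      ∀ n σ, c n σ = (jm ℓ f (rs K σ) (G n) - G n) + pe hg (Sep F) (1 - X) (c' n σ) := by
  obtain ⟨U, hU⟩ := exists_U' H hg
  have h2 := hg.prime.two_le
  have hpow : ((1 : ℤ[X]) - X) ^ (ℓ - 1) = (1 - X) * (1 - X) ^ (ℓ - 2) := by
    rw [← pow_succ', show ℓ - 2 + 1 = ℓ - 1 by omega]
  have hUl : ∀ x : Jac ℓ f (Sep F), pe hg (Sep F) (1 - X) (pe hg (Sep F) (U * (1 - X) ^ (ℓ - 2)) x) =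
      ℓ • x := by
    intro x
    rw [hU, ← pe_mul, hpow]
    congr 1
    congr 1
    ring
  have hUl' : ∀ x : Jac ℓ f (Sep F), pe hg (Sep F) (U * (1 - X) ^ (ℓ - 2)) (pe hg (Sep F) (1 - X) x) =
      ℓ • x := by
    intro x
    rw [pe_comm, hUl]
  obtain ⟨R1, hR1⟩ := lam_pow_surj H hg (ℓ - 2) R
  -- divisibility by `ℓ`
  have hdiv : ∀ x : Jac ℓ f (Sep F), ∃ y, ℓ • y = x := by
    intro x
    obtain ⟨W, hW⟩ := exists_W' H hg
    obtain ⟨y, hy⟩ := lam_pow_surj H hg ℓ x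
    exact ⟨pe hg _ W y, by rw [← hW, hy]⟩
  choose dv hdv using hdiv
  let P' : Jac ℓ f K := pe hg K U P
  let G : ℕ → Jac ℓ f (Sep F) := fun n => Nat.casesOn n (ℓ • R1)
    (fun i => Nat.rec R1 (fun _ X => dv X) i)
  have G0 : G 0 = jm ℓ f (incl K K (Sep F)) P' := by
    show ℓ • R1 = _
    rw [jm_pe, ← hR, hU, ← hR1, ← pe_mul, ← pe_mul, hpow]
    congr 1
    congr 1
    ring
  have G1 : G 1 = R1 := rfl
  have GS : ∀ n, ℓ • G (n + 1) = G n := by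
    intro n
    cases n with
    | zero => rfl
    | succ n => exact hdv _
  have PK : ∀ φ : Sep F →ₐ[K] Sep F, jm ℓ f φ (G 0) = G 0 := by
    intro φ
    have h1 : φ.comp (incl K K (Sep F)) = incl K K (Sep F) := AlgHom.ext fun x => φ.commutes x
    rw [G0, jm_jm, h1]
  set V : ℤ[X] := U * (1 - X) ^ (ℓ - 2) with hV
  let b : ℕ → (Sep F ≃ₐ[F] Sep F) → Jac ℓ f (Sep F) := fun n σ =>
    c n σ - (jm ℓ f (rs K σ) (G n) - G n)
  let c' : ℕ → (Sep F ≃ₐ[F] Sep F) → Jac ℓ f (Sep F) := fun n σ => pe hg (Sep F) V (b (n + 1) σ)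
  have bS : ∀ n σ, ℓ • b (n + 1) σ = b n σ := by
    intro n σ
    show ℓ • (c (n + 1) σ - (jm ℓ f (rs K σ) (G (n + 1)) - G (n + 1))) = _
    rw [smul_sub, smul_sub, ← map_nsmul, GS, hT.tc.step]
  have hlam : ∀ n σ, pe hg (Sep F) (1 - X) (c' n σ) = b n σ := by
    intro n σ
    show pe hg (Sep F) (1 - X) (pe hg (Sep F) V (b (n + 1) σ)) = _
    rw [hUl, bS]
  refine ⟨P', G, c', G0, GS, ⟨?_, fun n => ?_, ?_⟩, fun n σ => ?_⟩
  · refine ⟨fun n => ((hT.tc.coc (n + 1)).sub (cob_isCoc H hg _)).pe hg V, fun σ => ?_, fun n σ => ?_⟩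
    · show pe hg (Sep F) V (b 1 σ) = 0
      have h3 : pe hg (Sep F) ((1 - X) ^ (ℓ - 2)) (b 1 σ) = 0 := by
        show pe hg (Sep F) ((1 - X) ^ (ℓ - 2)) (c 1 σ - (jm ℓ f (rs K σ) (G 1) - G 1)) = 0
        rw [map_sub, key, map_sub, ← jm_pe, G1, hR1, sub_self]
      rw [hV, pe_mul, h3, map_zero]
    · show ℓ • pe hg (Sep F) V (b (n + 1 + 1) σ) = pe hg (Sep F) V (b (n + 1) σ)
      rw [← map_nsmul, bS]
  · obtain ⟨h1, h3⟩ := hT.loc (n + 1)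
    exact ⟨fun v => ((h1 v).sub _).pe hg V, (h3.sub _).pe hg V⟩
  · intro τ
    obtain ⟨m, Q, hQ, hinv⟩ := hT.inv τ
    -- the element for `b`
    let Q' : ℕ → Jac ℓ f (Sep F) := fun n => Q n - ℓ ^ m • (jm ℓ f (ak τ) (G n) - G n)
    have Q'0 : Q' 0 = 0 := by
      show Q 0 - ℓ ^ m • (jm ℓ f (ak τ) (G 0) - G 0) = 0
      rw [hQ.zero, PK, sub_self, smul_zero, sub_zero]
    have Q'S : ∀ n, ℓ • Q' (n + 1) = Q' n := by
      intro n
      show ℓ • (Q (n + 1) - ℓ ^ m • (jm ℓ f (ak τ) (G (n + 1)) - G (n + 1))) = _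
      rw [smul_sub, hQ.step, smul_comm, smul_sub, ← map_nsmul, GS]
    have hb : ∀ (n : ℕ) (σ σ' : Sep F ≃ₐ[F] Sep F), (∀ x, τ (σ' x) = σ (τ x)) →
        ℓ ^ m • (jm ℓ f (ak τ) (b n σ') - b n σ) = jm ℓ f (rs K σ) (Q' n) - Q' n := by
      intro n σ σ' h
      have h1 := hinv n σ σ' h
      have hcomp : jm ℓ f (ak τ) (jm ℓ f (rs K σ') (G n)) =
          jm ℓ f (rs K σ) (jm ℓ f (ak τ) (G n)) := by
        have h5 : (ak τ).comp (rs K σ') = (rs K σ).comp (ak τ) := AlgHom.ext fun x => h x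
        rw [jm_jm, jm_jm, h5]
      show ℓ ^ m • (jm ℓ f (ak τ) (c n σ' - (jm ℓ f (rs K σ') (G n) - G n)) -
        (c n σ - (jm ℓ f (rs K σ) (G n) - G n))) =
        jm ℓ f (rs K σ) (Q n - ℓ ^ m • (jm ℓ f (ak τ) (G n) - G n)) -
          (Q n - ℓ ^ m • (jm ℓ f (ak τ) (G n) - G n))
      rw [map_sub (jm ℓ f (ak τ)), map_sub (jm ℓ f (ak τ)), hcomp]
      have h4 : jm ℓ f (ak τ) (c n σ') -
          (jm ℓ f (rs K σ) (jm ℓ f (ak τ) (G n)) - jm ℓ f (ak τ) (G n)) -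
          (c n σ - (jm ℓ f (rs K σ) (G n) - G n)) =
          (jm ℓ f (ak τ) (c n σ') - c n σ) -
          (jm ℓ f (rs K σ) (jm ℓ f (ak τ) (G n) - G n) - (jm ℓ f (ak τ) (G n) - G n)) := by
        rw [map_sub (jm ℓ f (rs K σ))]; abel
      rw [h4, smul_sub, h1, map_sub (jm ℓ f (rs K σ)) (Q n), map_nsmul (jm ℓ f (rs K σ)), smul_sub]
      abel
    refine ⟨m + 1, fun n => ℓ • pe hg (Sep F) V (Q' (n + 1)), ⟨?_, fun n => ?_⟩, ?_⟩
    · show ℓ • pe hg (Sep F) V (Q' (0 + 1)) = 0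
      rw [← map_nsmul, Q'S, Q'0, map_zero]
    · show ℓ • (ℓ • pe hg (Sep F) V (Q' (n + 1 + 1))) = ℓ • pe hg (Sep F) V (Q' (n + 1))
      rw [← map_nsmul (pe hg (Sep F) V), Q'S]
    · intro n σ σ' h
      have h1 := hb (n + 1) σ σ' h
      show ℓ ^ (m + 1) • (jm ℓ f (ak τ) (pe hg (Sep F) V (b (n + 1) σ')) -
        pe hg (Sep F) V (b (n + 1) σ)) = jm ℓ f (rs K σ) (ℓ • pe hg (Sep F) V (Q' (n + 1))) -
          ℓ • pe hg (Sep F) V (Q' (n + 1))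
      rw [jm_pe, ← map_sub, pow_succ', mul_smul, ← map_nsmul, h1, map_nsmul, ← smul_sub, map_sub,
        jm_pe]
  · rw [hlam]
    show c n σ = (jm ℓ f (rs K σ) (G n) - G n) + (c n σ - (jm ℓ f (rs K σ) (G n) - G n))
    abel

/-- If the first layer of every Tate class is the class of an element of `J(K)`, the Tate
conjecture at `ℓ` holds. -/
theorem tate_of_first
    (h : ∀ c : ℕ → (Sep F ≃ₐ[F] Sep F) → Jac ℓ f (Sep F), IsTateClass ℓ k' f c →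
      ∃ (P : Jac ℓ f K) (R : Jac ℓ f (Sep F)),
        pe hg (Sep F) (1 - X) R = jm ℓ f (incl K K (Sep F)) P ∧
        ∀ σ, pe hg (Sep F) ((1 - X) ^ (ℓ - 2)) (c 1 σ) = jm ℓ f (rs K σ) R - R) :
    TateAt (F := F) ℓ k' f := by
  have key : ∀ (N : ℕ) (c : ℕ → (Sep F ≃ₐ[F] Sep F) → Jac ℓ f (Sep F)), IsTateClass ℓ k' f c →
      ∃ (P : Jac ℓ f K) (G : ℕ → Jac ℓ f (Sep F))
        (c' : ℕ → (Sep F ≃ₐ[F] Sep F) → Jac ℓ f (Sep F)),
        G 0 = jm ℓ f (incl K K (Sep F)) P ∧ (∀ n, ℓ • G (n + 1) = G n) ∧ IsTateClass ℓ k' f c' ∧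
        ∀ n σ, c n σ = (jm ℓ f (rs K σ) (G n) - G n) + pe hg (Sep F) ((1 - X) ^ N) (c' n σ) := by
    intro N
    induction N with
    | zero =>
      intro c hc
      refine ⟨0, fun _ => 0, c, ?_, fun n => smul_zero _, hc, fun n σ => ?_⟩
      · rw [map_zero]
      · rw [map_zero, sub_zero, zero_add, pow_zero, pe_one]
    | succ N ih =>
      intro c hc
      obtain ⟨P, R, hR, hcR⟩ := h c hc
      obtain ⟨P1, G1, c1, h1, h3, h4, h5⟩ := div_class H hg hc hR hcR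
      obtain ⟨P2, G2, c2, h6, h7, h8, h9⟩ := ih c1 h4
      refine ⟨P1 + pe hg K (1 - X) P2, fun n => G1 n + pe hg (Sep F) (1 - X) (G2 n), c2, ?_,
        fun n => ?_, h8, fun n σ => ?_⟩
      · show G1 0 + pe hg (Sep F) (1 - X) (G2 0) = _
        rw [h1, h6, map_add, jm_pe]
      · show ℓ • (G1 (n + 1) + pe hg (Sep F) (1 - X) (G2 (n + 1))) = _
        rw [smul_add, h3, ← map_nsmul, h7]
      · show c n σ = (jm ℓ f (rs K σ) (G1 n + pe hg (Sep F) (1 - X) (G2 n)) -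
          (G1 n + pe hg (Sep F) (1 - X) (G2 n))) + pe hg (Sep F) ((1 - X) ^ (N + 1)) (c2 n σ)
        rw [h5, h9, map_add, map_sub, ← pe_mul, ← pow_succ', map_add, jm_pe]
        abel
  intro c hc hl hi n
  obtain ⟨W, hW⟩ := exists_W' H hg
  obtain ⟨P, G, c', h0, h1, h3, h4⟩ := key (ℓ * n) c ⟨hc, hl, hi⟩
  have hWn : ∀ (n : ℕ) (x : Jac ℓ f (Sep F)), pe hg (Sep F) ((1 - X) ^ (ℓ * n)) x =
      pe hg (Sep F) (W ^ n) (ℓ ^ n • x) := by
    intro n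
    induction n with
    | zero => intro x; rw [mul_zero, pow_zero, pow_zero, pow_zero, one_smul]
    | succ n ih =>
      intro x
      rw [mul_add, mul_one, pow_add, pe_mul, hW, ih, pow_succ W, pe_mul, pow_succ ℓ, mul_smul,
        ← map_nsmul, ← map_nsmul, smul_comm]
  have hz : ∀ (n : ℕ) (σ : Sep F ≃ₐ[F] Sep F), ℓ ^ n • c' n σ = 0 := by
    intro n σ
    induction n with
    | zero => rw [pow_zero, one_smul, h3.tc.zero]
    | succ n ih => rw [pow_succ, mul_smul, h3.tc.step, ih]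
  have hG : ∀ n : ℕ, ℓ ^ n • G n = jm ℓ f (incl K K (Sep F)) P := by
    intro n
    induction n with
    | zero => rw [pow_zero, one_smul, h0]
    | succ n ih => rw [pow_succ, mul_smul, h1, ih]
  refine ⟨P, G n, hG n, fun σ => ?_⟩
  rw [h4 n σ, hWn, hz, map_zero, add_zero]

end step

end Pool.Agent.Y160.SE
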